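import Pool.Agent.W715.Annulus

/-!
# The billiard map of the annulus
-/

set_option autoImplicit false

open Set Filter Topology MeasureTheory Complex

namespace Pool.Agent.W715.Bil.Ann

lemma pos_zero (r φ : ℝ) : ann.pos ((0, r, φ) : State 2) = 2 * exp ((r / 2 : ℝ) * I) := by
  show curve 0 r = _
  unfold curve
  rw [rad_zero, sg_zero, one_mul]
  norm_num

lemma pos_one (s ψ : ℝ) : ann.pos ((1, s, ψ) : State 2) = exp ((-s : ℝ) * I) := by
  show curve 1 s = _
  unfold curve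
  rw [rad_one, sg_one]
  norm_num

lemma deriv_zero (r : ℝ) : deriv (ann.γ 0) r = I * exp ((r / 2 : ℝ) * I) := by
  show deriv (curve 0) r = _
  rw [deriv_curve, rad_zero, sg_zero, one_mul]
  norm_num

lemma deriv_one (s : ℝ) : deriv (ann.γ 1) s = -(I * exp ((-s : ℝ) * I)) := by
  show deriv (curve 1) s = _
  rw [deriv_curve, rad_one, sg_one]
  norm_num

lemma vel_zero (r φ : ℝ) : ann.vel ((0, r, φ) : State 2) = -exp ((r / 2 - φ : ℝ) * I) := by
  show I * deriv (ann.γ 0) r * exp (-(φ * I)) = _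
  rw [deriv_zero]
  have : exp ((r / 2 - φ : ℝ) * I) = exp ((r / 2 : ℝ) * I) * exp (-(φ * I)) := by
    rw [← Complex.exp_add]; congr 1; push_cast; ring
  rw [this]
  have hI : I * I = -1 := I_mul_I
  linear_combination (exp ((r / 2 : ℝ) * I) * exp (-(φ * I))) * hI

lemma vel_one (s ψ : ℝ) : ann.vel ((1, s, ψ) : State 2) = exp ((-s - ψ : ℝ) * I) := by
  show I * deriv (ann.γ 1) s * exp (-(ψ * I)) = _
  rw [deriv_one]
  have : exp ((-s - ψ : ℝ) * I) = exp ((-s : ℝ) * I) * exp (-(ψ * I)) := by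
    rw [← Complex.exp_add]; congr 1; push_cast; ring
  rw [this]
  have hI : I * I = -1 := I_mul_I
  linear_combination (-exp ((-s : ℝ) * I) * exp (-(ψ * I))) * hI

lemma conj_exp (a : ℝ) : (starRingEnd ℂ) (exp (a * I)) = exp ((-a : ℝ) * I) := by
  rw [← Complex.exp_conj]
  congr 1
  simp

lemma norm_real_add_mul (w : ℂ) (θ : ℝ) : ‖exp (θ * I) * w‖ = ‖w‖ := by
  rw [norm_mul, Complex.norm_exp_ofReal_mul_I, one_mul]

lemma normSq_lt_iff (a b : ℝ) : (1 < ‖(a : ℂ) + b * I‖ ∧ ‖(a : ℂ) + b * I‖ < 2) ↔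
    (1 < a ^ 2 + b ^ 2 ∧ a ^ 2 + b ^ 2 < 4) := by
  have h : ‖(a : ℂ) + b * I‖ ^ 2 = a ^ 2 + b ^ 2 := by
    rw [← Complex.normSq_eq_norm_sq, Complex.normSq_add_mul_I]
  have h0 := norm_nonneg ((a : ℂ) + b * I)
  constructor
  · rintro ⟨h1, h2⟩
    constructor <;> nlinarith
  · rintro ⟨h1, h2⟩
    constructor
    · by_contra h3
      push Not at h3
      nlinarith
    · by_contra h3
      push Not at h3
      nlinarith

/-- From the outer to the inner circle. -/
lemma step_in {r φ s : ℝ} (h1 : |φ| < Real.pi / 2) (h2 : |2 * Real.sin φ| < 1)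
    (hs : exp ((-s : ℝ) * I) = exp ((r / 2 - φ + Real.arcsin (2 * Real.sin φ) : ℝ) * I)) :
    ann.Step ((0, r, φ) : State 2) ((1, s, -Real.arcsin (2 * Real.sin φ)) : State 2) := by
  set a := Real.arcsin (2 * Real.sin φ) with ha
  have hab := abs_lt.1 h2
  have hsina : Real.sin a = 2 * Real.sin φ := Real.sin_arcsin hab.1.le hab.2.le
  have hab1 : -(Real.pi / 2) < a ∧ a < Real.pi / 2 :=
    ⟨Real.neg_pi_div_two_lt_arcsin.2 hab.1, Real.arcsin_lt_pi_div_two.2 hab.2⟩
  have hcosa : 0 < Real.cos a := Real.cos_pos_of_mem_Ioo hab1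
  have hcosφ : 0 < Real.cos φ := Real.cos_pos_of_mem_Ioo (abs_lt.1 h1)
  have e1 := Real.sin_sq_add_cos_sq a
  have e2 := Real.sin_sq_add_cos_sq φ
  have hlt : Real.cos a < 2 * Real.cos φ := by nlinarith
  refine ⟨⟨Or.inl trivial, h1⟩, ⟨Or.inl trivial, ?_⟩, 2 * Real.cos φ - Real.cos a, by linarith,
    ?_, ?_, ?_⟩
  · show |-a| < Real.pi / 2
    rw [abs_neg, abs_lt]; exact hab1
  · rw [pos_one, pos_zero, vel_zero, hs]
    have k1 : exp ((r / 2 - φ + a : ℝ) * I) = exp ((r / 2 - φ : ℝ) * I) * exp (a * I) := by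
      rw [← Complex.exp_add]; congr 1; push_cast; ring
    have k2 : exp ((r / 2 : ℝ) * I) = exp ((r / 2 - φ : ℝ) * I) * exp (φ * I) := by
      rw [← Complex.exp_add]; congr 1; push_cast; ring
    rw [k1, k2, Complex.exp_mul_I (a : ℂ), Complex.exp_mul_I (φ : ℂ)]
    rw [← Complex.ofReal_cos, ← Complex.ofReal_sin, ← Complex.ofReal_cos, ← Complex.ofReal_sin,
      hsina]
    push_cast
    ring
  · intro u hu
    rw [pos_zero, vel_zero]
    have k2 : 2 * exp ((r / 2 : ℝ) * I) + u * -exp ((r / 2 - φ : ℝ) * I) =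
        exp ((r / 2 - φ : ℝ) * I) * (((2 * Real.cos φ - u : ℝ) : ℂ) + (2 * Real.sin φ : ℝ) * I) := by
      have k2 : exp ((r / 2 : ℝ) * I) = exp ((r / 2 - φ : ℝ) * I) * exp (φ * I) := by
        rw [← Complex.exp_add]; congr 1; push_cast; ring
      rw [k2, Complex.exp_mul_I (φ : ℂ), ← Complex.ofReal_cos, ← Complex.ofReal_sin]
      push_cast
      ring
    show _ ∈ interior Q
    rw [k2, interior_Q, mem_ofPred_eq, norm_real_add_mul, normSq_lt_iff]
    constructor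
    · nlinarith [hu.1, hu.2]
    · nlinarith [hu.1, hu.2]
  · rw [vel_one, vel_zero]
    show _ = (deriv (ann.γ 1) s) ^ 2 * _
    rw [deriv_one, map_neg, conj_exp, hs]
    have k3 : exp ((-s - -a : ℝ) * I) = exp ((-s : ℝ) * I) * exp (a * I) := by
      rw [← Complex.exp_add]; congr 1; push_cast; ring
    rw [k3, hs, neg_sq, mul_pow, I_sq]
    have k4 : exp ((r / 2 - φ + a : ℝ) * I) * exp (a * I) =
        exp ((r / 2 - φ + a : ℝ) * I) ^ 2 * exp ((-(r / 2 - φ) : ℝ) * I) := by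
      rw [← Complex.exp_nat_mul, ← Complex.exp_add, ← Complex.exp_add]
      congr 1; push_cast; ring
    rw [k4]; ring

/-- From the inner to the outer circle. -/
lemma step_out {s ψ r : ℝ} (h1 : |ψ| < Real.pi / 2)
    (hr : exp ((r / 2 : ℝ) * I) = exp ((-s - ψ + Real.arcsin (Real.sin ψ / 2) : ℝ) * I)) :
    ann.Step ((1, s, ψ) : State 2) ((0, r, -Real.arcsin (Real.sin ψ / 2)) : State 2) := by
  set b := Real.arcsin (Real.sin ψ / 2) with hb
  have hb1 : -1 < Real.sin ψ / 2 := by have := Real.neg_one_le_sin ψ; linarith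
  have hb2 : Real.sin ψ / 2 < 1 := by have := Real.sin_le_one ψ; linarith
  have hsinb : Real.sin b = Real.sin ψ / 2 := Real.sin_arcsin hb1.le hb2.le
  have hbb : -(Real.pi / 2) < b ∧ b < Real.pi / 2 :=
    ⟨Real.neg_pi_div_two_lt_arcsin.2 hb1, Real.arcsin_lt_pi_div_two.2 hb2⟩
  have hcosb : 0 < Real.cos b := Real.cos_pos_of_mem_Ioo hbb
  have hcosψ : 0 < Real.cos ψ := Real.cos_pos_of_mem_Ioo (abs_lt.1 h1)
  have e1 := Real.sin_sq_add_cos_sq b
  have e2 := Real.sin_sq_add_cos_sq ψ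
  have hsψ : Real.sin ψ = 2 * Real.sin b := by linarith
  have hlt : Real.cos ψ < 2 * Real.cos b := by nlinarith
  refine ⟨⟨Or.inl trivial, h1⟩, ⟨Or.inl trivial, ?_⟩, 2 * Real.cos b - Real.cos ψ, by linarith,
    ?_, ?_, ?_⟩
  · show |-b| < Real.pi / 2
    rw [abs_neg, abs_lt]; exact hbb
  · rw [pos_one, pos_zero, vel_one, hr]
    have k1 : exp ((-s - ψ + b : ℝ) * I) = exp ((-s - ψ : ℝ) * I) * exp (b * I) := by
      rw [← Complex.exp_add]; congr 1; push_cast; ring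
    have k2 : exp ((-s : ℝ) * I) = exp ((-s - ψ : ℝ) * I) * exp (ψ * I) := by
      rw [← Complex.exp_add]; congr 1; push_cast; ring
    rw [k1, k2, Complex.exp_mul_I (b : ℂ), Complex.exp_mul_I (ψ : ℂ)]
    rw [← Complex.ofReal_cos, ← Complex.ofReal_sin, ← Complex.ofReal_cos, ← Complex.ofReal_sin,
      hsψ]
    push_cast
    ring
  · intro u hu
    rw [pos_one, vel_one]
    have k2 : exp ((-s : ℝ) * I) + u * exp ((-s - ψ : ℝ) * I) =
        exp ((-s - ψ : ℝ) * I) * (((Real.cos ψ + u : ℝ) : ℂ) + (Real.sin ψ : ℝ) * I) := by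
      have k2 : exp ((-s : ℝ) * I) = exp ((-s - ψ : ℝ) * I) * exp (ψ * I) := by
        rw [← Complex.exp_add]; congr 1; push_cast; ring
      rw [k2, Complex.exp_mul_I (ψ : ℂ), ← Complex.ofReal_cos, ← Complex.ofReal_sin]
      push_cast
      ring
    show _ ∈ interior Q
    rw [k2, interior_Q, mem_ofPred_eq, norm_real_add_mul, normSq_lt_iff]
    constructor
    · nlinarith [hu.1, hu.2]
    · nlinarith [hu.1, hu.2]
  · rw [vel_one, vel_zero]
    show _ = (deriv (ann.γ 0) r) ^ 2 * _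
    rw [deriv_zero, conj_exp]
    have k3 : exp ((r / 2 - -b : ℝ) * I) = exp ((r / 2 : ℝ) * I) * exp (b * I) := by
      rw [← Complex.exp_add]; congr 1; push_cast; ring
    rw [k3, hr, mul_pow, I_sq]
    have k4 : exp ((-s - ψ + b : ℝ) * I) * exp (b * I) =
        exp ((-s - ψ + b : ℝ) * I) ^ 2 * exp ((-(-s - ψ) : ℝ) * I) := by
      rw [← Complex.exp_nat_mul, ← Complex.exp_add, ← Complex.exp_add]
      congr 1; push_cast; ring
    rw [k4]; ring

end Pool.Agent.W715.Bil.Ann
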