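import Pool.Agent.W715.AnnMeas

/-!
# The annulus: an invariant measure with non-integrable derivative
-/

set_option autoImplicit false

open Set Filter Topology MeasureTheory Complex
open scoped ENNReal

namespace Pool.Agent.W715.Bil.Ann

/-! ### derivatives -/

/-- the billiard map near outer states -/
noncomputable def G0 (p : ℝ × ℝ) : ℝ × ℝ :=
  (-(p.1 / 2 - p.2 + Real.arcsin (2 * Real.sin p.2)), -Real.arcsin (2 * Real.sin p.2))

/-- the billiard map near inner states -/
noncomputable def G1 (p : ℝ × ℝ) : ℝ × ℝ :=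
  (2 * (-p.1 - p.2 + Real.arcsin (Real.sin p.2 / 2)), -Real.arcsin (Real.sin p.2 / 2))

lemma hasDeriv_outer {r φ : ℝ} (h1 : |φ| < Real.pi / 2) (h2 : |2 * Real.sin φ| < 1) :
    ∃ A : ℝ × ℝ →L[ℝ] ℝ × ℝ, ann.HasDeriv ((0, r, φ) : State 2) A ∧
      2 * Real.cos φ / √(1 - (2 * Real.sin φ) ^ 2) ≤ ‖A‖ := by
  have hab := abs_lt.1 h2
  set g : ℝ := 1 / √(1 - (2 * Real.sin φ) ^ 2) * (2 * Real.cos φ) with hg
  have hder : HasDerivAt (fun x : ℝ => Real.arcsin (2 * Real.sin x)) g φ := by
    have k1 := Real.hasDerivAt_arcsin (x := 2 * Real.sin φ) (ne_of_gt hab.1) (ne_of_lt hab.2)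
    have k2 : HasDerivAt (fun x : ℝ => 2 * Real.sin x) (2 * Real.cos φ) φ :=
      (Real.hasDerivAt_sin φ).const_mul 2
    exact k1.comp φ k2
  have hs : HasFDerivAt (fun p : ℝ × ℝ => Real.arcsin (2 * Real.sin p.2))
      (g • ContinuousLinearMap.snd ℝ ℝ ℝ) (r, φ) :=
    HasDerivAt.comp_hasFDerivAt (x := (r, φ)) (h₂ := fun x : ℝ => Real.arcsin (2 * Real.sin x))
      hder hasFDerivAt_snd
  have hf : HasFDerivAt (fun p : ℝ × ℝ => -(p.1 / 2 - p.2 + Real.arcsin (2 * Real.sin p.2)))
      (-((2 : ℝ)⁻¹ • ContinuousLinearMap.fst ℝ ℝ ℝ - ContinuousLinearMap.snd ℝ ℝ ℝ +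
        g • ContinuousLinearMap.snd ℝ ℝ ℝ)) (r, φ) := by
    have k3 : HasFDerivAt (fun p : ℝ × ℝ => p.1 / 2) ((2 : ℝ)⁻¹ • ContinuousLinearMap.fst ℝ ℝ ℝ)
        (r, φ) := by
      have := (hasFDerivAt_fst (𝕜 := ℝ) (E := ℝ) (F := ℝ) (p := (r, φ))).const_smul (2 : ℝ)⁻¹
      refine this.congr_of_eventuallyEq (Eventually.of_forall fun p => ?_)
      simp only [Pi.smul_apply, smul_eq_mul]
      ring
    exact ((k3.sub hasFDerivAt_snd).add hs).neg
  refine ⟨ContinuousLinearMap.prod _ _, ⟨1, G0, hf.prodMk hs.neg, ?_⟩, ?_⟩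
  · have o1 : ∀ᶠ p : ℝ × ℝ in 𝓝 (r, φ), |p.2| < Real.pi / 2 :=
      (isOpen_lt (by fun_prop) continuous_const).mem_nhds h1
    have o2 : ∀ᶠ p : ℝ × ℝ in 𝓝 (r, φ), |2 * Real.sin p.2| < 1 :=
      (isOpen_lt (by fun_prop) continuous_const).mem_nhds h2
    filter_upwards [o1, o2] with p hp1 hp2
    obtain ⟨a, b⟩ := p
    refine step_in hp1 hp2 ?_
    congr 2
    simp only
    push_cast
    ring
  · have hc : 0 < Real.cos φ := Real.cos_pos_of_mem_Ioo (abs_lt.1 h1)
    have hle := ContinuousLinearMap.le_opNorm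
      ((-((2 : ℝ)⁻¹ • ContinuousLinearMap.fst ℝ ℝ ℝ - ContinuousLinearMap.snd ℝ ℝ ℝ +
        g • ContinuousLinearMap.snd ℝ ℝ ℝ)).prod (-(g • ContinuousLinearMap.snd ℝ ℝ ℝ)))
      ((0, 1) : ℝ × ℝ)
    have hn : ‖((0, 1) : ℝ × ℝ)‖ = 1 := by simp [Prod.norm_def]
    rw [hn, mul_one] at hle
    refine le_trans ?_ hle
    have hg0 : 0 ≤ g := by positivity
    have : 2 * Real.cos φ / √(1 - (2 * Real.sin φ) ^ 2) = |g| := by
      rw [abs_of_nonneg hg0, hg]; ring
    rw [this, Prod.norm_def]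
    refine le_trans (le_of_eq ?_) (le_max_right _ _)
    simp

lemma hasDeriv_inner {s ψ : ℝ} (h1 : |ψ| < Real.pi / 2) :
    ∃ A : ℝ × ℝ →L[ℝ] ℝ × ℝ, ann.HasDeriv ((1, s, ψ) : State 2) A := by
  have hb1 : -1 < Real.sin ψ / 2 := by have := Real.neg_one_le_sin ψ; linarith
  have hb2 : Real.sin ψ / 2 < 1 := by have := Real.sin_le_one ψ; linarith
  have hder : DifferentiableAt ℝ (fun x : ℝ => Real.arcsin (Real.sin x / 2)) ψ := by
    have k1 := Real.hasDerivAt_arcsin (x := Real.sin ψ / 2) (ne_of_gt hb1) (ne_of_lt hb2)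
    have k2 : HasDerivAt (fun x : ℝ => Real.sin x / 2) (Real.cos ψ / 2) ψ :=
      (Real.hasDerivAt_sin ψ).div_const 2
    exact (k1.comp ψ k2).differentiableAt
  have hs : DifferentiableAt ℝ (fun p : ℝ × ℝ => Real.arcsin (Real.sin p.2 / 2)) (s, ψ) :=
    DifferentiableAt.comp (g := fun x : ℝ => Real.arcsin (Real.sin x / 2)) (s, ψ) hder
      differentiableAt_snd
  have hG : DifferentiableAt ℝ G1 (s, ψ) := by
    unfold G1
    refine DifferentiableAt.prodMk ?_ hs.neg
    exact (((differentiableAt_fst.neg).sub differentiableAt_snd).add hs).const_mul 2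
  refine ⟨_, 0, G1, hG.hasFDerivAt, ?_⟩
  have o1 : ∀ᶠ p : ℝ × ℝ in 𝓝 (s, ψ), |p.2| < Real.pi / 2 :=
    (isOpen_lt (by fun_prop) continuous_const).mem_nhds h1
  filter_upwards [o1] with p hp1
  obtain ⟨a, b⟩ := p
  refine step_out hp1 ?_
  congr 2
  simp only
  push_cast
  ring

lemma mom_abs {x : State 2} (hx : x ∈ E) (h0 : x.1 = 0) : |2 * Real.sin x.2.2| < 1 := by
  have h := hx.2.2
  unfold mom at h
  rw [if_pos h0] at h
  rw [abs_lt]
  constructor <;> linarith [h.1, h.2]

lemma E_hasDeriv {x : State 2} (hx : x ∈ E) : ∃ A, ann.HasDeriv x A := by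
  obtain ⟨i, r, φ⟩ := x
  by_cases hi : i = 0
  · subst hi
    obtain ⟨A, hA, _⟩ := hasDeriv_outer (r := r) hx.2.1 (mom_abs hx rfl)
    exact ⟨A, hA⟩
  · have hi1 : i = 1 := by omega
    subst hi1
    exact hasDeriv_inner hx.2.1

lemma E_norm_outer {x : State 2} (hx : x ∈ E) (h0 : x.1 = 0) {A : ℝ × ℝ →L[ℝ] ℝ × ℝ}
    (hA : ann.HasDeriv x A) : -(1 / 2) * Real.log (1 - mom x) ≤ Real.log ‖A‖ := by
  obtain ⟨i, r, φ⟩ := x
  simp only at h0
  subst h0
  have hm : mom (0, r, φ) = 2 * Real.sin φ := by unfold mom; simp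
  obtain ⟨B, hB, hle⟩ := hasDeriv_outer (r := r) hx.2.1 (mom_abs hx rfl)
  rw [Table.hasDeriv_unique hA hB, hm]
  have h3 := hx.2.2
  rw [hm] at h3
  set L := 2 * Real.sin φ with hL
  have hc : 0 < Real.cos φ := Real.cos_pos_of_mem_Ioo (abs_lt.1 hx.2.1)
  have hcos : 3 ≤ (2 * Real.cos φ) ^ 2 := by
    have := Real.sin_sq_add_cos_sq φ
    have h4 : Real.sin φ = L / 2 := by rw [hL]; ring
    rw [h4] at this
    nlinarith [h3.1, h3.2]
  have a1 : 0 < 1 - L := by linarith [h3.2]
  have a2 : 0 < 1 - L ^ 2 := by nlinarith [h3.1, h3.2]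
  have hsq : 0 < √(1 - L ^ 2) := Real.sqrt_pos.2 a2
  have hq : 0 < 2 * Real.cos φ / √(1 - L ^ 2) := by positivity
  refine le_trans ?_ (Real.log_le_log hq hle)
  have key : Real.log (1 / (1 - L)) ≤ Real.log ((2 * Real.cos φ / √(1 - L ^ 2)) ^ 2) := by
    apply Real.log_le_log (by positivity)
    rw [div_pow, Real.sq_sqrt a2.le, div_le_div_iff₀ a1 a2]
    nlinarith [h3.1, h3.2]
  rw [Real.log_pow, Real.log_div one_ne_zero a1.ne', Real.log_one] at key
  push_cast at key
  linarith

/-! ### the measure -/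

/-- the distribution of the angular momentum -/
noncomputable def ν : Measure ℝ :=
  (volume.restrict (Ioo (0 : ℝ) 1)).map (fun v => 1 - Real.exp (-(1 / v)))

lemma measurable_v : Measurable (fun v : ℝ => 1 - Real.exp (-(1 / v))) := by fun_prop

instance : IsProbabilityMeasure (volume.restrict (Ioo (0 : ℝ) 1)) :=
  ⟨by rw [Measure.restrict_apply_univ, Real.volume_Ioo]; simp⟩

instance : IsProbabilityMeasure ν := by
  unfold ν
  exact Measure.isProbabilityMeasure_map measurable_v.aemeasurable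

lemma ν_mem : ∀ᵐ L ∂ν, L ∈ Ioo (0 : ℝ) 1 := by
  unfold ν
  refine (ae_map_iff (p := fun L => L ∈ Ioo (0 : ℝ) 1) measurable_v.aemeasurable
    measurableSet_Ioo).2 ?_
  filter_upwards [ae_restrict_mem measurableSet_Ioo] with v hv
  have h1 : -(1 / v) < 0 := by
    have := one_div_pos.2 hv.1
    linarith
  constructor
  · have := Real.exp_lt_one_iff.2 h1
    linarith
  · have := Real.exp_pos (-(1 / v))
    linarith

lemma ν_singleton (L : ℝ) : ν {L} = 0 := by
  unfold ν
  rw [Measure.map_apply measurable_v (measurableSet_singleton L)]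
  rw [Measure.restrict_apply (measurable_v (measurableSet_singleton L))]
  apply Set.Subsingleton.measure_zero
  rintro a ⟨ha, ha'⟩ b ⟨hb, hb'⟩
  simp only [mem_preimage, mem_singleton_iff] at ha hb
  have h1 : Real.exp (-(1 / a)) = Real.exp (-(1 / b)) := by linarith
  have h2 := Real.exp_injective h1
  have h3 : 1 / a = 1 / b := neg_injective h2
  rw [one_div, one_div] at h3
  exact inv_injective h3

lemma ν_Rset : ν Rset = 0 := by
  have : ν (⋃ L ∈ Rset, {L}) = 0 := by
    rw [measure_biUnion_null_iff Rset_countable]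
    intro L _
    exact ν_singleton L
  rwa [biUnion_of_singleton] at this

/-- the law of the parameters -/
noncomputable def m : Measure (ℝ × UnitAddCircle) := ν.prod volume

lemma circle_univ : (volume : Measure UnitAddCircle) univ = 1 := by
  rw [AddCircle.measure_univ]; simp

instance : IsProbabilityMeasure (volume : Measure UnitAddCircle) := ⟨circle_univ⟩

instance : IsProbabilityMeasure m := by unfold m; infer_instance

lemma m_mem : ∀ᵐ p ∂m, p.1 ∈ Ioo (0 : ℝ) 1 := by
  unfold m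
  exact (Measure.quasiMeasurePreserving_fst.ae ν_mem)

lemma measurable_S : Measurable S := by
  unfold S
  refine measurable_fst.prodMk ?_
  exact measurable_snd.add ((AddCircle.measurable_mk').comp (measurable_C.comp measurable_fst))

lemma S_preserving : MeasurePreserving S m m := by
  unfold m
  have := MeasurePreserving.skew_product (μa := ν) (μb := ν) (μc := (volume : Measure UnitAddCircle))
    (μd := (volume : Measure UnitAddCircle)) (f := id) (MeasurePreserving.id ν)
    (g := fun L w => w + ((C L : ℝ) : UnitAddCircle)) (measurable_S.snd)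
    (Eventually.of_forall fun L => map_add_right_eq_self _ _)
  exact this

/-- the invariant measure -/
noncomputable def μ : Measure (State 2) := (2⁻¹ : ℝ≥0∞) • (m.map P0 + m.map P1)

instance : IsProbabilityMeasure μ := by
  unfold μ
  have h0 : IsProbabilityMeasure (m.map P0) := Measure.isProbabilityMeasure_map measurable_P0.aemeasurable
  have h1 : IsProbabilityMeasure (m.map P1) := Measure.isProbabilityMeasure_map measurable_P1.aemeasurable
  constructor
  rw [Measure.smul_apply, Measure.add_apply, measure_univ, measure_univ, smul_eq_mul]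
  rw [show (1 : ℝ≥0∞) + 1 = 2 by norm_num]
  exact ENNReal.inv_mul_cancel two_ne_zero ENNReal.ofNat_ne_top

lemma map_F_P0 : (m.map P0).map F = m.map P1 := by
  rw [Measure.map_map measurable_F measurable_P0]
  have h1 : m.map (F ∘ P0) = m.map (P1 ∘ S) := by
    apply Measure.map_congr
    filter_upwards [m_mem] with p hp
    exact F_P0 hp
  rw [h1, ← Measure.map_map measurable_P1 measurable_S, S_preserving.map_eq]

lemma map_F_P1 : (m.map P1).map F = m.map P0 := by
  rw [Measure.map_map measurable_F measurable_P1]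
  have h1 : m.map (F ∘ P1) = m.map (P0 ∘ S) := by
    apply Measure.map_congr
    filter_upwards [m_mem] with p hp
    exact F_P1 hp
  rw [h1, ← Measure.map_map measurable_P0 measurable_S, S_preserving.map_eq]

lemma F_preserving : MeasurePreserving F μ μ := by
  refine ⟨measurable_F, ?_⟩
  unfold μ
  rw [Measure.map_smul, Measure.map_add _ _ measurable_F, map_F_P0, map_F_P1, add_comm]

lemma μ_ae {p : State 2 → Prop} (hp : MeasurableSet {x | p x}) (h0 : ∀ᵐ q ∂m, p (P0 q))
    (h1 : ∀ᵐ q ∂m, p (P1 q)) : ∀ᵐ x ∂μ, p x := by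
  unfold μ
  apply Measure.ae_smul_measure
  rw [ae_add_measure_iff]
  exact ⟨(ae_map_iff measurable_P0.aemeasurable hp).2 h0,
    (ae_map_iff measurable_P1.aemeasurable hp).2 h1⟩

lemma μ_E : ∀ᵐ x ∂μ, x ∈ E := by
  apply μ_ae (p := fun x => x ∈ E) measurableSet_E
  · filter_upwards [m_mem] with p hp
    exact P0_E hp
  · filter_upwards [m_mem] with p hp
    exact P1_E hp

lemma μ_periodic : μ ann.PeriodicPts = 0 := by
  have h1 : ∀ᵐ x ∂μ, x ∉ ann.PeriodicPts := by
    have h2 : ∀ᵐ x ∂μ, mom x ∉ Rset := by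
      have hR : ∀ᵐ p ∂m, p.1 ∉ Rset := by
        unfold m
        have hR1 : ∀ᵐ L ∂ν, L ∉ Rset := by
          rw [ae_iff]
          simp only [not_not]
          exact ν_Rset
        exact Measure.quasiMeasurePreserving_fst.ae hR1
      apply μ_ae (p := fun x => mom x ∉ Rset)
      · exact measurable_mom Rset_countable.measurableSet.compl
      · filter_upwards [m_mem, hR] with p hp hp2
        rw [mom_P0 hp]; exact hp2
      · filter_upwards [m_mem, hR] with p hp hp2
        rw [mom_P1 hp]; exact hp2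
    filter_upwards [μ_E, h2] with x hx h3 h4
    exact h3 (E_periodic hx h4)
  rw [ae_iff] at h1
  simpa using h1

lemma lintegral_v : ∫⁻ v in Ioo (0 : ℝ) 1, ENNReal.ofReal (1 / 2 * v⁻¹) = ⊤ := by
  by_contra hne
  have h1 : IntegrableOn (fun v : ℝ => 1 / 2 * v⁻¹) (Ioo 0 1) := by
    refine ⟨(by fun_prop : Measurable (fun v : ℝ => 1 / 2 * v⁻¹)).aestronglyMeasurable, ?_⟩
    rw [hasFiniteIntegral_iff_ofReal]
    · exact lt_top_iff_ne_top.2 hne
    · filter_upwards [ae_restrict_mem measurableSet_Ioo] with v hv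
      have := hv.1
      positivity
  have h2 : IntegrableOn (fun v : ℝ => v⁻¹) (Ioo 0 1) := by
    have := h1.const_mul 2
    refine this.congr (Eventually.of_forall fun v => ?_)
    simp only
    ring
  have h3 : IntervalIntegrable (fun v : ℝ => v⁻¹) volume 0 1 := by
    rw [intervalIntegrable_iff_integrableOn_Ioo_of_le zero_le_one]
    exact h2
  rw [intervalIntegrable_inv_iff] at h3
  rcases h3 with h3 | h3
  · exact zero_ne_one h3
  · exact h3 (by simp)

lemma lintegral_top (D : State 2 → ℝ × ℝ →L[ℝ] ℝ × ℝ) (hD : ∀ᵐ x ∂μ, ann.HasDeriv x (D x)) :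
    ∫⁻ x, ENNReal.ofReal (max 0 (Real.log ‖D x‖)) ∂μ = ⊤ := by
  rw [eq_top_iff]
  set h : State 2 → ℝ≥0∞ := fun x => {x : State 2 | x.1 = 0}.indicator
    (fun x => ENNReal.ofReal (-(1 / 2) * Real.log (1 - mom x))) x with hh
  have hmeas : Measurable h := by
    apply Measurable.indicator
    · have := measurable_mom
      fun_prop
    · exact measurable_fst (measurableSet_singleton 0)
  have h1 : ∫⁻ x, h x ∂μ ≤ ∫⁻ x, ENNReal.ofReal (max 0 (Real.log ‖D x‖)) ∂μ := by
    apply lintegral_mono_ae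
    filter_upwards [μ_E, hD] with x hx hDx
    rw [hh]
    simp only [indicator]
    split_ifs with h0
    · apply ENNReal.ofReal_le_ofReal
      exact le_trans (E_norm_outer hx h0 hDx) (le_max_right _ _)
    · exact zero_le
  refine le_trans ?_ h1
  unfold μ
  rw [lintegral_smul_measure, lintegral_add_measure]
  have h2 : ∫⁻ x, h x ∂(m.map P0) = ⊤ := by
    rw [lintegral_map hmeas measurable_P0]
    have h3 : ∫⁻ p, h (P0 p) ∂m = ∫⁻ p, ENNReal.ofReal (-(1 / 2) * Real.log (1 - p.1)) ∂m := by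
      apply lintegral_congr_ae
      filter_upwards [m_mem] with p hp
      rw [hh]
      simp only
      rw [indicator_of_mem (by rfl), mom_P0 hp]
    have hmf : Measurable (fun L : ℝ => ENNReal.ofReal (-(1 / 2) * Real.log (1 - L))) := by
      fun_prop
    rw [h3]
    unfold m
    have h4 : ∫⁻ p : ℝ × UnitAddCircle, ENNReal.ofReal (-(1 / 2) * Real.log (1 - p.1))
        ∂(ν.prod volume) = ∫⁻ L, ENNReal.ofReal (-(1 / 2) * Real.log (1 - L)) ∂ν := by
      rw [lintegral_prod (fun p : ℝ × UnitAddCircle =>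
        ENNReal.ofReal (-(1 / 2) * Real.log (1 - p.1))) (hmf.comp measurable_fst).aemeasurable]
      simp only [lintegral_const, measure_univ, mul_one]
    rw [h4]
    unfold ν
    rw [lintegral_map hmf measurable_v, ← lintegral_v]
    apply lintegral_congr_ae
    filter_upwards [ae_restrict_mem measurableSet_Ioo] with v hv
    rw [show 1 - (1 - Real.exp (-(1 / v))) = Real.exp (-(1 / v)) by ring, Real.log_exp]
    congr 1
    rw [one_div]
    ring
  rw [h2, top_add]
  simp

end Pool.Agent.W715.Bil.Ann
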