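import Pool.Agent.W715.AnnDyn

/-!
# An invariant measure of the annulus
-/

set_option autoImplicit false

open Set Filter Topology MeasureTheory Complex
open scoped ENNReal

namespace Pool.Agent.W715.Bil.Ann

/-- representative in `[0, 1)` -/
noncomputable def rep (w : UnitAddCircle) : ℝ := (AddCircle.equivIco (1 : ℝ) 0 w : ℝ)

lemma rep_coe (x : ℝ) : rep (x : UnitAddCircle) = Int.fract x := by
  unfold rep
  have := AddCircle.coe_equivIco_mk_apply (1 : ℝ) x
  simp [this]

lemma rep_mem (w : UnitAddCircle) : rep w ∈ Ico (0 : ℝ) 1 := by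
  have := (AddCircle.equivIco (1 : ℝ) 0 w).2
  simpa [rep] using this

lemma coe_rep (w : UnitAddCircle) : (rep w : UnitAddCircle) = w :=
  (AddCircle.equivIco (1 : ℝ) 0).symm_apply_apply w

lemma measurable_rep : Measurable rep := by
  have := (AddCircle.measurableEquivIco (1 : ℝ) 0).measurable
  exact measurable_subtype_coe.comp this

/-- rotation angle (in turns) between consecutive collisions, for the angular momentum `L` -/
noncomputable def C (L : ℝ) : ℝ := (Real.arcsin L - Real.arcsin (L / 2)) / (2 * Real.pi)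

/-- outer states -/
noncomputable def P0 (p : ℝ × UnitAddCircle) : State 2 :=
  (0, 4 * Real.pi * rep p.2, Real.arcsin (p.1 / 2))

/-- inner states -/
noncomputable def P1 (p : ℝ × UnitAddCircle) : State 2 :=
  (1, 2 * Real.pi * rep (-p.2), -Real.arcsin p.1)

/-- the shift -/
noncomputable def S (p : ℝ × UnitAddCircle) : ℝ × UnitAddCircle := (p.1, p.2 + (C p.1 : ℝ))

lemma measurable_C : Measurable C := by
  unfold C
  exact ((Real.continuous_arcsin.measurable).sub
    (Real.continuous_arcsin.measurable.comp (measurable_id.div_const 2))).div_const _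

lemma measurable_P0 : Measurable P0 := by
  unfold P0
  refine measurable_const.prodMk (Measurable.prodMk ?_ ?_)
  · exact (measurable_rep.comp measurable_snd).const_mul _
  · exact Real.continuous_arcsin.measurable.comp (measurable_fst.div_const 2)

lemma measurable_P1 : Measurable P1 := by
  unfold P1
  refine measurable_const.prodMk (Measurable.prodMk ?_ ?_)
  · exact (measurable_rep.comp measurable_snd.neg).const_mul _
  · exact (Real.continuous_arcsin.measurable.comp measurable_fst).neg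

/-- the billiard map on the relevant part -/
noncomputable def F (x : State 2) : State 2 :=
  if x.1 = 0 then
    (1, 2 * Real.pi * Int.fract (-(x.2.1 / 2 - x.2.2 + Real.arcsin (2 * Real.sin x.2.2)) /
      (2 * Real.pi)), -Real.arcsin (2 * Real.sin x.2.2))
  else
    (0, 4 * Real.pi * Int.fract ((-x.2.1 - x.2.2 + Real.arcsin (Real.sin x.2.2 / 2)) /
      (2 * Real.pi)), -Real.arcsin (Real.sin x.2.2 / 2))

lemma measurable_F : Measurable F := by
  unfold F
  refine Measurable.ite (measurable_fst (measurableSet_singleton 0)) ?_ ?_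
  · refine measurable_const.prodMk (Measurable.prodMk ?_ ?_)
    · refine (measurable_fract.comp ?_).const_mul _
      fun_prop
    · fun_prop
  · refine measurable_const.prodMk (Measurable.prodMk ?_ ?_)
    · refine (measurable_fract.comp ?_).const_mul _
      fun_prop
    · fun_prop

lemma two_sin {L : ℝ} (hL : L ∈ Ioo (0 : ℝ) 1) : 2 * Real.sin (Real.arcsin (L / 2)) = L := by
  rw [Real.sin_arcsin (by linarith [hL.1]) (by linarith [hL.2])]; ring

lemma sin_half {L : ℝ} (hL : L ∈ Ioo (0 : ℝ) 1) : Real.sin (-Real.arcsin L) / 2 = -(L / 2) := by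
  rw [Real.sin_neg, Real.sin_arcsin (by linarith [hL.1]) (by linarith [hL.2])]; ring

lemma F_P0 {p : ℝ × UnitAddCircle} (hp : p.1 ∈ Ioo (0 : ℝ) 1) : F (P0 p) = P1 (S p) := by
  obtain ⟨L, w⟩ := p
  have h2 := two_sin hp
  simp only at h2
  unfold F P0 P1 S
  simp only [if_true, h2]
  refine Prod.ext rfl (Prod.ext ?_ rfl)
  simp only
  congr 1
  have h3 : (-(w + ((C L : ℝ) : UnitAddCircle))) = ((-(rep w + C L) : ℝ) : UnitAddCircle) := by
    rw [AddCircle.coe_neg, AddCircle.coe_add, coe_rep]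
  rw [h3, rep_coe]
  congr 1
  unfold C
  have := Real.pi_pos.ne'
  field_simp
  ring

lemma F_P1 {p : ℝ × UnitAddCircle} (hp : p.1 ∈ Ioo (0 : ℝ) 1) : F (P1 p) = P0 (S p) := by
  obtain ⟨L, w⟩ := p
  have h2 := sin_half hp
  simp only at h2
  unfold F P0 P1 S
  simp only [Fin.one_eq_zero_iff, OfNat.ofNat_ne_one, if_false, h2, Real.arcsin_neg, neg_neg]
  refine Prod.ext rfl (Prod.ext ?_ rfl)
  simp only
  congr 1
  have h3 : (w + ((C L : ℝ) : UnitAddCircle)) = ((-(rep (-w)) + C L : ℝ) : UnitAddCircle) := by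
    rw [AddCircle.coe_add, AddCircle.coe_neg, coe_rep, neg_neg]
  rw [h3, rep_coe]
  congr 1
  unfold C
  have := Real.pi_pos.ne'
  field_simp
  ring

lemma rep_turn (w : UnitAddCircle) (x : ℝ) (h : (x : UnitAddCircle) = w) :
    ∃ k : ℤ, rep w = x + k := by
  refine ⟨-⌊x⌋, ?_⟩
  rw [← h, rep_coe, Int.fract]
  push_cast
  ring

lemma arcsin_bd {y : ℝ} (h1 : -1 < y) (h2 : y < 1) : |Real.arcsin y| < Real.pi / 2 := by
  rw [abs_lt]
  exact ⟨Real.neg_pi_div_two_lt_arcsin.2 h1, Real.arcsin_lt_pi_div_two.2 h2⟩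

lemma step_P0 {p : ℝ × UnitAddCircle} (hp : p.1 ∈ Ioo (0 : ℝ) 1) :
    ann.Step (P0 p) (P1 (S p)) := by
  obtain ⟨L, w⟩ := p
  simp only at hp
  have h2 := two_sin hp
  have h := step_in (r := 4 * Real.pi * rep w) (φ := Real.arcsin (L / 2))
    (s := 2 * Real.pi * rep (-(w + ((C L : ℝ) : UnitAddCircle))))
    (arcsin_bd (by linarith [hp.1]) (by linarith [hp.2]))
    (by rw [h2, abs_lt]; constructor <;> linarith [hp.1, hp.2]) ?_
  · rw [h2] at h
    exact h
  · rw [exp_eq_iff, h2]
    obtain ⟨k, hk⟩ := rep_turn (-(w + ((C L : ℝ) : UnitAddCircle))) (-(rep w + C L)) (by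
      rw [AddCircle.coe_neg, AddCircle.coe_add, coe_rep])
    refine ⟨-k, ?_⟩
    rw [hk]
    unfold C
    have := Real.pi_pos.ne'
    push_cast
    field_simp
    ring

lemma step_P1 {p : ℝ × UnitAddCircle} (hp : p.1 ∈ Ioo (0 : ℝ) 1) :
    ann.Step (P1 p) (P0 (S p)) := by
  obtain ⟨L, w⟩ := p
  simp only at hp
  have h2 := sin_half hp
  have h := step_out (s := 2 * Real.pi * rep (-w)) (ψ := -Real.arcsin L)
    (r := 4 * Real.pi * rep (w + ((C L : ℝ) : UnitAddCircle)))
    (by rw [abs_neg]; exact arcsin_bd (by linarith [hp.1]) (by linarith [hp.2])) ?_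
  · rw [h2, Real.arcsin_neg, neg_neg] at h
    exact h
  · rw [exp_eq_iff, h2, Real.arcsin_neg]
    obtain ⟨k, hk⟩ := rep_turn (w + ((C L : ℝ) : UnitAddCircle)) (-(rep (-w)) + C L) (by
      rw [AddCircle.coe_add, AddCircle.coe_neg, coe_rep, neg_neg])
    refine ⟨k, ?_⟩
    rw [hk]
    unfold C
    have := Real.pi_pos.ne'
    push_cast
    field_simp
    ring

lemma P0_dom {p : ℝ × UnitAddCircle} : P0 p ∈ ann.Dom := by
  have h := rep_mem p.2
  have hpi := Real.pi_pos
  refine ⟨?_, fun h => absurd trivial h, ?_⟩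
  · show 4 * Real.pi * rep p.2 ∈ Ico 0 (2 * (2 * Real.pi))
    exact ⟨mul_nonneg (by positivity) h.1, by nlinarith [h.2]⟩
  · show |Real.arcsin (p.1 / 2)| ≤ _
    rw [abs_le]
    exact ⟨Real.neg_pi_div_two_le_arcsin _, Real.arcsin_le_pi_div_two _⟩

lemma P1_dom {p : ℝ × UnitAddCircle} : P1 p ∈ ann.Dom := by
  have h := rep_mem (-p.2)
  have hpi := Real.pi_pos
  refine ⟨?_, fun h => absurd trivial h, ?_⟩
  · show 2 * Real.pi * rep (-p.2) ∈ Ico 0 (1 * (2 * Real.pi))
    exact ⟨mul_nonneg (by positivity) h.1, by nlinarith [h.2]⟩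
  · show |-Real.arcsin (p.1)| ≤ _
    rw [abs_neg, abs_le]
    exact ⟨Real.neg_pi_div_two_le_arcsin _, Real.arcsin_le_pi_div_two _⟩

/-- iterates of the shift -/
noncomputable def Sk (k : ℤ) (p : ℝ × UnitAddCircle) : ℝ × UnitAddCircle :=
  (p.1, p.2 + ((k * C p.1 : ℝ) : UnitAddCircle))

lemma S_Sk (k : ℤ) (p : ℝ × UnitAddCircle) : S (Sk k p) = Sk (k + 1) p := by
  unfold S Sk
  refine Prod.ext rfl ?_
  simp only
  rw [add_assoc]
  congr 1
  rw [← AddCircle.coe_add]
  congr 1
  push_cast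
  ring

lemma Sk_zero (p : ℝ × UnitAddCircle) : Sk 0 p = p := by
  unfold Sk
  simp

open Classical in
/-- the orbit of a state over the outer circle (`b = true`) or the inner circle -/
noncomputable def orb (b : Bool) (p : ℝ × UnitAddCircle) (k : ℤ) : State 2 :=
  if (Even k ↔ b = true) then P0 (Sk k p) else P1 (Sk k p)

lemma orb_orbit (b : Bool) {p : ℝ × UnitAddCircle} (hp : p.1 ∈ Ioo (0 : ℝ) 1) :
    ann.Orbit (orb b p) := by
  intro k
  unfold orb
  have hpar : Even (k + 1) ↔ ¬ Even k := Int.even_add_one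
  by_cases h : (Even k ↔ b = true)
  · have h' : ¬ (Even (k + 1) ↔ b = true) := by
      rw [hpar, h]; tauto
    rw [if_pos h, if_neg h', ← S_Sk]
    exact ⟨P0_dom, step_P0 hp⟩
  · have h' : (Even (k + 1) ↔ b = true) := by
      rw [hpar]; tauto
    rw [if_neg h, if_pos h', ← S_Sk]
    exact ⟨P1_dom, step_P1 hp⟩

lemma orb_zero_true (p : ℝ × UnitAddCircle) : orb true p 0 = P0 p := by
  unfold orb; simp [Sk_zero]

lemma orb_zero_false (p : ℝ × UnitAddCircle) : orb false p 0 = P1 p := by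
  unfold orb; simp [Sk_zero]

/-- forward uniqueness -/
lemma orbit_forward {z z' : ℤ → State 2} (h : ann.Orbit z) (h' : ann.Orbit z') (h0 : z 0 = z' 0)
    (k : ℕ) : z k = z' k := by
  induction k with
  | zero => exact h0
  | succ k ih =>
    have h1 := (h k).2
    have h2 := (h' k).2
    rw [← ih] at h2
    have := Table.step_unique h1 h2 (h (k + 1)).1 (h' (k + 1)).1
    push_cast
    exact this

/-- A periodic state has rational rotation number. -/
lemma periodic_rational (b : Bool) {p : ℝ × UnitAddCircle} (hp : p.1 ∈ Ioo (0 : ℝ) 1)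
    (h : orb b p 0 ∈ ann.PeriodicPts) : ∃ q : ℚ, C p.1 = q := by
  obtain ⟨z, hz, h0, k, hk, hzk⟩ := h
  have h1 := orbit_forward hz (orb_orbit b hp) h0 k
  rw [hzk] at h1
  have hrep : ∀ w w' : UnitAddCircle, rep w = rep w' → w = w' := by
    intro w w' hw
    rw [← coe_rep w, ← coe_rep w', hw]
  have h2 : p.2 = (Sk k p).2 := by
    unfold orb at h1
    have hpi := Real.pi_pos.ne'
    split_ifs at h1 with c1 c2 c2
    · have h3 := congrArg (fun x : State 2 => x.2.1) h1
      simp only [P0] at h3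
      have h4 := mul_left_cancel₀ (by positivity) h3
      have := hrep _ _ h4
      rwa [Sk_zero] at this
    · have h3 := congrArg (fun x : State 2 => x.1) h1
      simp only [P0, P1] at h3
      exact absurd h3 (by decide)
    · have h3 := congrArg (fun x : State 2 => x.1) h1
      simp only [P0, P1] at h3
      exact absurd h3 (by decide)
    · have h3 := congrArg (fun x : State 2 => x.2.1) h1
      simp only [P1] at h3
      have h4 := mul_left_cancel₀ (by positivity) h3
      have := neg_injective (hrep _ _ h4)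
      rwa [Sk_zero] at this
  have h3 : ((k * C p.1 : ℝ) : UnitAddCircle) = 0 := by
    unfold Sk at h2
    simp only [Int.cast_natCast] at h2
    exact (left_eq_add.1 h2)
  rw [AddCircle.coe_eq_zero_iff] at h3
  obtain ⟨m, hm⟩ := h3
  refine ⟨(m : ℚ) / k, ?_⟩
  have hk' : (k : ℝ) ≠ 0 := by exact_mod_cast hk.ne'
  push_cast
  rw [eq_div_iff hk']
  simp only [zsmul_eq_mul, mul_one] at hm
  linarith

lemma C_strictMono : StrictMonoOn C (Ioo (0 : ℝ) 1) := by
  have hd : ∀ L ∈ Ioo (0 : ℝ) 1, HasDerivAt C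
      ((1 / √(1 - L ^ 2) - 1 / √(1 - (L / 2) ^ 2) * (1 / 2)) / (2 * Real.pi)) L := by
    intro L hL
    have h1 := Real.hasDerivAt_arcsin (x := L) (by linarith [hL.1]) (by linarith [hL.2])
    have h2 := Real.hasDerivAt_arcsin (x := L / 2) (by linarith [hL.1]) (by linarith [hL.2])
    have h3 : HasDerivAt (fun x : ℝ => x / 2) (1 / 2) L := (hasDerivAt_id L).div_const 2
    exact (h1.sub (h2.comp L h3)).div_const _
  apply strictMonoOn_of_deriv_pos (convex_Ioo 0 1)
  · intro L hL
    exact (hd L hL).continuousAt.continuousWithinAt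
  · intro L hL
    rw [interior_Ioo] at hL
    rw [(hd L hL).deriv]
    have hpi := Real.pi_pos
    apply div_pos _ (by positivity)
    have a1 : 0 < 1 - L ^ 2 := by nlinarith [hL.1, hL.2]
    have a2 : 1 - L ^ 2 ≤ 1 - (L / 2) ^ 2 := by nlinarith [hL.1, hL.2]
    have b1 : 0 < √(1 - L ^ 2) := Real.sqrt_pos.2 a1
    have b2 : √(1 - L ^ 2) ≤ √(1 - (L / 2) ^ 2) := Real.sqrt_le_sqrt a2
    have b3 : 1 / √(1 - (L / 2) ^ 2) ≤ 1 / √(1 - L ^ 2) := one_div_le_one_div_of_le b1 b2
    have b4 : 0 < 1 / √(1 - (L / 2) ^ 2) := by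
      apply one_div_pos.2
      linarith
    linarith

/-- the angular momenta with rational rotation number -/
def Rset : Set ℝ := {L | L ∈ Ioo (0 : ℝ) 1 ∧ ∃ q : ℚ, C L = q}

lemma Rset_countable : Rset.Countable := by
  have h1 : Rset ⊆ Ioo (0 : ℝ) 1 ∩ C ⁻¹' (range ((↑) : ℚ → ℝ)) := by
    rintro L ⟨h, q, hq⟩
    exact ⟨h, q, hq.symm⟩
  refine Countable.mono h1 ?_
  have h2 : InjOn C (Ioo (0 : ℝ) 1 ∩ C ⁻¹' (range ((↑) : ℚ → ℝ))) :=
    C_strictMono.injOn.mono inter_subset_left
  exact MapsTo.countable_of_injOn (f := C) (t := range ((↑) : ℚ → ℝ)) (fun x hx => hx.2) h2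
    (countable_range _)

/-- the angular momentum of a state -/
noncomputable def mom (x : State 2) : ℝ :=
  if x.1 = 0 then 2 * Real.sin x.2.2 else -Real.sin x.2.2

lemma measurable_mom : Measurable mom := by
  unfold mom
  exact Measurable.ite (measurable_fst (measurableSet_singleton 0)) (by fun_prop) (by fun_prop)

/-- the relevant part of the phase space -/
def E : Set (State 2) := {x | x.2.1 ∈ Ico 0 (len x.1) ∧ |x.2.2| < Real.pi / 2 ∧
  mom x ∈ Ioo (0 : ℝ) 1}

lemma measurableSet_E : MeasurableSet E := by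
  have hl : Measurable (fun x : State 2 => len x.1) :=
    (measurable_of_countable len).comp measurable_fst
  have h1 : MeasurableSet {x : State 2 | 0 ≤ x.2.1} :=
    measurableSet_le measurable_const (by fun_prop)
  have h2 : MeasurableSet {x : State 2 | x.2.1 < len x.1} := measurableSet_lt (by fun_prop) hl
  have h3 : MeasurableSet {x : State 2 | |x.2.2| < Real.pi / 2} :=
    measurableSet_lt (by fun_prop) measurable_const
  have h4 : MeasurableSet {x : State 2 | 0 < mom x} := measurableSet_lt measurable_const measurable_mom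
  have h5 : MeasurableSet {x : State 2 | mom x < 1} := measurableSet_lt measurable_mom measurable_const
  have : E = ({x : State 2 | 0 ≤ x.2.1} ∩ {x : State 2 | x.2.1 < len x.1}) ∩
      ({x : State 2 | |x.2.2| < Real.pi / 2} ∩ ({x : State 2 | 0 < mom x} ∩
      {x : State 2 | mom x < 1})) := by
    ext x
    simp [E]
  rw [this]
  exact (h1.inter h2).inter (h3.inter (h4.inter h5))

lemma exists_param {x : State 2} (hx : x ∈ E) :
    ∃ (b : Bool) (p : ℝ × UnitAddCircle), p.1 ∈ Ioo (0 : ℝ) 1 ∧ orb b p 0 = x ∧ p.1 = mom x ∧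
      ((b = true ∧ x.1 = 0) ∨ (b = false ∧ x.1 = 1)) := by
  obtain ⟨i, r, φ⟩ := x
  obtain ⟨h1, h2, h3⟩ := hx
  simp only at h1 h2
  have hpi := Real.pi_pos
  have habs := abs_lt.1 h2
  by_cases hi : i = 0
  · subst hi
    have hm : mom (0, r, φ) = 2 * Real.sin φ := by unfold mom; simp
    rw [hm] at h3 ⊢
    have hl : len 0 = 2 * (2 * Real.pi) := rfl
    rw [hl] at h1
    refine ⟨true, (2 * Real.sin φ, ((r / (4 * Real.pi) : ℝ) : UnitAddCircle)), h3, ?_, rfl,
      Or.inl ⟨rfl, rfl⟩⟩
    rw [orb_zero_true]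
    unfold P0
    simp only
    refine Prod.ext rfl (Prod.ext ?_ ?_)
    · simp only
      rw [rep_coe, Int.fract_eq_self.2]
      · field_simp
      · constructor
        · exact div_nonneg h1.1 (by positivity)
        · rw [div_lt_one (by positivity)]
          linarith [h1.2]
    · simp only
      rw [mul_div_cancel_left₀ _ two_ne_zero]
      exact Real.arcsin_sin habs.1.le habs.2.le
  · have hi1 : i = 1 := by omega
    subst hi1
    have hm : mom (1, r, φ) = -Real.sin φ := by unfold mom; simp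
    rw [hm] at h3 ⊢
    have hl : len 1 = 1 * (2 * Real.pi) := rfl
    rw [hl] at h1
    refine ⟨false, (-Real.sin φ, ((-(r / (2 * Real.pi)) : ℝ) : UnitAddCircle)), h3, ?_, rfl,
      Or.inr ⟨rfl, rfl⟩⟩
    rw [orb_zero_false]
    unfold P1
    simp only
    refine Prod.ext rfl (Prod.ext ?_ ?_)
    · simp only
      rw [← AddCircle.coe_neg, neg_neg, rep_coe, Int.fract_eq_self.2]
      · field_simp
      · constructor
        · exact div_nonneg h1.1 (by positivity)
        · rw [div_lt_one (by positivity)]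
          linarith [h1.2]
    · simp only
      rw [← Real.sin_neg, Real.arcsin_sin (by linarith) (by linarith), neg_neg]

lemma E_good {x : State 2} (hx : x ∈ E) : x ∈ ann.Good := by
  obtain ⟨b, p, hp, h, _⟩ := exists_param hx
  exact ⟨orb b p, orb_orbit b hp, h⟩

lemma E_F {x : State 2} (hx : x ∈ E) : F x ∈ ann.Dom ∧ ann.Step x (F x) := by
  obtain ⟨b, p, hp, h, _⟩ := exists_param hx
  cases b
  · rw [orb_zero_false] at h
    rw [← h, F_P1 hp]
    exact ⟨P0_dom, step_P1 hp⟩
  · rw [orb_zero_true] at h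
    rw [← h, F_P0 hp]
    exact ⟨P1_dom, step_P0 hp⟩

lemma E_periodic {x : State 2} (hx : x ∈ E) (hp : x ∈ ann.PeriodicPts) : mom x ∈ Rset := by
  obtain ⟨b, p, h1, h, h2, _⟩ := exists_param hx
  rw [← h] at hp
  have := periodic_rational b h1 hp
  rw [← h2]
  exact ⟨h1, this⟩

lemma mom_P0 {p : ℝ × UnitAddCircle} (hp : p.1 ∈ Ioo (0 : ℝ) 1) : mom (P0 p) = p.1 := by
  unfold mom P0
  simp only [if_true]
  exact two_sin hp

lemma mom_P1 {p : ℝ × UnitAddCircle} (hp : p.1 ∈ Ioo (0 : ℝ) 1) : mom (P1 p) = p.1 := by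
  unfold mom P1
  simp only [Fin.one_eq_zero_iff, OfNat.ofNat_ne_one, if_false]
  rw [Real.sin_neg, Real.sin_arcsin (by linarith [hp.1]) (by linarith [hp.2]), neg_neg]

lemma P0_E {p : ℝ × UnitAddCircle} (hp : p.1 ∈ Ioo (0 : ℝ) 1) : P0 p ∈ E := by
  refine ⟨(P0_dom (p := p)).1, ?_, ?_⟩
  · exact arcsin_bd (by linarith [hp.1]) (by linarith [hp.2])
  · rw [mom_P0 hp]; exact hp

lemma P1_E {p : ℝ × UnitAddCircle} (hp : p.1 ∈ Ioo (0 : ℝ) 1) : P1 p ∈ E := by
  refine ⟨(P1_dom (p := p)).1, ?_, ?_⟩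
  · show |-Real.arcsin p.1| < _
    rw [abs_neg]
    exact arcsin_bd (by linarith [hp.1]) (by linarith [hp.2])
  · rw [mom_P1 hp]; exact hp

end Pool.Agent.W715.Bil.Ann
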