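import Pool.Agent.W715.BilDefs

/-!
# The annulus as a billiard table
-/

set_option autoImplicit false

open Set Filter Topology MeasureTheory Complex

namespace Pool.Agent.W715.Bil.Ann

/-- the radii of the boundary circles -/
def rad : Fin 2 → ℝ := ![2, 1]

/-- the orientations of the boundary circles -/
def sg : Fin 2 → ℝ := ![1, -1]

lemma rad_zero : rad 0 = 2 := rfl
lemma rad_one : rad 1 = 1 := rfl
lemma sg_zero : sg 0 = 1 := rfl
lemma sg_one : sg 1 = -1 := rfl

lemma rad_pos (i : Fin 2) : 0 < rad i := by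
  fin_cases i
  · show (0 : ℝ) < 2; norm_num
  · show (0 : ℝ) < 1; norm_num

lemma sg_sq (i : Fin 2) : sg i * sg i = 1 := by
  fin_cases i
  · show (1 : ℝ) * 1 = 1; norm_num
  · show (-1 : ℝ) * (-1) = 1; norm_num

/-- the boundary circles -/
noncomputable def curve (i : Fin 2) (s : ℝ) : ℂ := rad i * exp ((sg i * s / rad i : ℝ) * I)

lemma hasDerivAt_curve (i : Fin 2) (s : ℝ) :
    HasDerivAt (curve i) (sg i * I * exp ((sg i * s / rad i : ℝ) * I)) s := by
  have h1 : HasDerivAt (fun s : ℝ => sg i * s / rad i) (sg i / rad i) s := by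
    simpa using ((hasDerivAt_id s).const_mul (sg i)).div_const (rad i)
  have h2 := (h1.ofReal_comp.mul_const I).cexp.const_mul (rad i : ℂ)
  have hr : (rad i : ℂ) ≠ 0 := by exact_mod_cast (rad_pos i).ne'
  refine h2.congr_deriv ?_
  push_cast
  field_simp

lemma deriv_curve (i : Fin 2) (s : ℝ) :
    deriv (curve i) s = sg i * I * exp ((sg i * s / rad i : ℝ) * I) :=
  (hasDerivAt_curve i s).deriv

lemma contDiff_curve (i : Fin 2) : ContDiff ℝ 3 (curve i) := by
  unfold curve
  have h1 : ContDiff ℝ 3 (fun s : ℝ => (sg i * s / rad i : ℝ)) := by fun_prop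
  have h2 : ContDiff ℝ 3 (fun s : ℝ => ((sg i * s / rad i : ℝ) : ℂ)) :=
    Complex.ofRealCLM.contDiff.comp h1
  exact contDiff_const.mul ((h2.mul contDiff_const).cexp)

lemma norm_curve (i : Fin 2) (s : ℝ) : ‖curve i s‖ = rad i := by
  unfold curve
  rw [norm_mul, Complex.norm_exp_ofReal_mul_I, mul_one, Complex.norm_real, Real.norm_eq_abs,
    abs_of_pos (rad_pos i)]

/-- the annulus -/
def Q : Set ℂ := {z | 1 ≤ ‖z‖ ∧ ‖z‖ ≤ 2}

lemma Q_eq : Q = Metric.closedBall 0 2 ∩ (Metric.ball 0 1)ᶜ := by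
  ext z
  simp [Q, and_comm]

lemma interior_Q : interior Q = {z | 1 < ‖z‖ ∧ ‖z‖ < 2} := by
  rw [Q_eq, interior_inter, interior_closedBall _ (by norm_num), interior_compl,
    closure_ball _ (by norm_num)]
  ext z
  simp [and_comm]

lemma closed_Q : IsClosed Q := by
  rw [Q_eq]
  exact Metric.isClosed_closedBall.inter Metric.isOpen_ball.isClosed_compl

lemma closure_interior_Q : closure (interior Q) = Q := by
  apply subset_antisymm
  · exact closure_minimal interior_subset closed_Q
  · intro z hz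
    rw [interior_Q]
    have hz0 : (0 : ℝ) < ‖z‖ := lt_of_lt_of_le one_pos hz.1
    have hlim : Tendsto (fun t : ℝ => ((((1 - t) * ‖z‖ + t * (3 / 2)) / ‖z‖ : ℝ) : ℂ) * z)
        (𝓝[>] 0) (𝓝 z) := by
      have hc : Continuous (fun t : ℝ => ((((1 - t) * ‖z‖ + t * (3 / 2)) / ‖z‖ : ℝ) : ℂ) * z) := by
        fun_prop
      have := hc.tendsto 0
      simp only [sub_zero, one_mul, zero_mul, add_zero] at this
      rw [div_self hz0.ne', Complex.ofReal_one, one_mul] at this
      exact this.mono_left nhdsWithin_le_nhds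
    refine mem_closure_of_tendsto hlim ?_
    filter_upwards [Ioo_mem_nhdsGT (zero_lt_one' ℝ)] with t ht
    have hn : ‖((((1 - t) * ‖z‖ + t * (3 / 2)) / ‖z‖ : ℝ) : ℂ) * z‖ =
        (1 - t) * ‖z‖ + t * (3 / 2) := by
      rw [norm_mul, Complex.norm_real, Real.norm_eq_abs, abs_of_pos, div_mul_cancel₀ _ hz0.ne']
      have : 0 < (1 - t) * ‖z‖ + t * (3 / 2) := by nlinarith [ht.1, ht.2]
      positivity
    show 1 < ‖((((1 - t) * ‖z‖ + t * (3 / 2)) / ‖z‖ : ℝ) : ℂ) * z‖ ∧
      ‖((((1 - t) * ‖z‖ + t * (3 / 2)) / ‖z‖ : ℝ) : ℂ) * z‖ < 2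
    rw [hn]
    constructor
    · nlinarith [ht.1, ht.2, hz.1]
    · nlinarith [ht.1, ht.2, hz.2]

lemma compact_Q : IsCompact Q := by
  rw [Q_eq]
  exact (isCompact_closedBall 0 2).inter_right Metric.isOpen_ball.isClosed_compl

lemma connected_interior_Q : IsConnected (interior Q) := by
  have h : interior Q = (fun p : ℝ × ℝ => (p.1 : ℂ) * exp (p.2 * I)) '' (Ioo 1 2 ×ˢ univ) := by
    rw [interior_Q]
    ext z
    simp only [mem_ofPred_eq, mem_image, mem_prod, mem_univ, and_true, Prod.exists]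
    constructor
    · intro hz
      exact ⟨‖z‖, arg z, hz, Complex.norm_mul_exp_arg_mul_I z⟩
    · rintro ⟨a, b, hab, rfl⟩
      rw [norm_mul, Complex.norm_exp_ofReal_mul_I, mul_one, Complex.norm_real, Real.norm_eq_abs,
        abs_of_pos (by linarith [hab.1])]
      exact hab
  rw [h]
  refine IsConnected.image ?_ _ (by fun_prop)
  exact (isConnected_Ioo (by norm_num)).prod isConnected_univ

lemma exp_eq_iff (a b : ℝ) : exp (a * I) = exp (b * I) ↔ ∃ k : ℤ, a = b + k * (2 * Real.pi) := by
  rw [Complex.exp_eq_exp_iff_exists_int]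
  constructor
  · rintro ⟨k, hk⟩
    refine ⟨k, ?_⟩
    have := congrArg Complex.im hk
    simpa using this
  · rintro ⟨k, hk⟩
    refine ⟨k, ?_⟩
    rw [hk]; push_cast; ring

lemma frontier_Q : frontier Q = {z | ‖z‖ = 1 ∨ ‖z‖ = 2} := by
  rw [frontier, closed_Q.closure_eq, interior_Q]
  ext z
  simp only [Q, Set.mem_sdiff, mem_ofPred_eq, not_and, not_lt]
  constructor
  · rintro ⟨⟨h1, h2⟩, h3⟩
    rcases h1.eq_or_lt with h | h
    · exact Or.inl h.symm
    · exact Or.inr (le_antisymm h2 (h3 h))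
  · rintro (h | h)
    · rw [h]; norm_num
    · rw [h]; norm_num

/-- the lengths of the circles -/
noncomputable def len (i : Fin 2) : ℝ := rad i * (2 * Real.pi)

lemma len_pos (i : Fin 2) : 0 < len i := mul_pos (rad_pos i) (by positivity)

lemma curve_periodic (i : Fin 2) : Function.Periodic (curve i) (len i) := by
  intro s
  unfold curve
  congr 1
  rw [exp_eq_iff]
  have hr := (rad_pos i).ne'
  fin_cases i
  · refine ⟨1, ?_⟩
    show sg 0 * (s + rad 0 * (2 * Real.pi)) / rad 0 = sg 0 * s / rad 0 + ((1 : ℤ) : ℝ) * _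
    rw [sg_zero, rad_zero]; push_cast; ring
  · refine ⟨-1, ?_⟩
    show sg 1 * (s + rad 1 * (2 * Real.pi)) / rad 1 = sg 1 * s / rad 1 + ((-1 : ℤ) : ℝ) * _
    rw [sg_one, rad_one]; push_cast; ring

lemma curve_inj {i : Fin 2} {s t : ℝ} (h : curve i s = curve i t) :
    ∃ k : ℤ, s = t + k * len i := by
  unfold curve at h
  have hr : (rad i : ℂ) ≠ 0 := by exact_mod_cast (rad_pos i).ne'
  have h1 := mul_left_cancel₀ hr h
  rw [exp_eq_iff] at h1
  obtain ⟨k, hk⟩ := h1
  have hr' := (rad_pos i).ne'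
  have h2 : sg i * s = sg i * t + k * len i := by
    unfold len
    field_simp at hk
    linarith
  fin_cases i
  · refine ⟨k, ?_⟩
    have : (1 : ℝ) * s = 1 * t + k * len 0 := h2
    simpa using this
  · refine ⟨-k, ?_⟩
    have : (-1 : ℝ) * s = (-1) * t + k * len 1 := h2
    show s = t + ((-k : ℤ) : ℝ) * len 1
    push_cast
    linarith

lemma index_eq {i j : Fin 2} {s t : ℝ} (h : curve i s = curve j t) : i = j := by
  have h1 := congrArg norm h
  rw [norm_curve, norm_curve] at h1
  fin_cases i <;> fin_cases j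
  · rfl
  · exfalso
    have : (2 : ℝ) = 1 := h1
    norm_num at this
  · exfalso
    have : (1 : ℝ) = 2 := h1
    norm_num at this
  · rfl

lemma boundary_Q : frontier Q = ⋃ i, curve i '' Icc 0 (len i) := by
  rw [frontier_Q]
  ext z
  simp only [mem_ofPred_eq, mem_iUnion]
  constructor
  · intro hz
    have hex : ∃ i : Fin 2, ‖z‖ = rad i := by
      rcases hz with h | h
      · exact ⟨1, h⟩
      · exact ⟨0, h⟩
    obtain ⟨i, hi⟩ := hex
    refine ⟨i, toIcoMod (len_pos i) 0 (sg i * rad i * arg z), ?_, ?_⟩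
    · have := toIcoMod_mem_Ico (len_pos i) 0 (sg i * rad i * arg z)
      rw [zero_add] at this
      exact ⟨this.1, this.2.le⟩
    · have h1 := (curve_periodic i).sub_zsmul_eq (x := sg i * rad i * arg z)
        (toIcoDiv (len_pos i) 0 (sg i * rad i * arg z))
      have h2 : curve i (toIcoMod (len_pos i) 0 (sg i * rad i * arg z)) =
          curve i (sg i * rad i * arg z) := h1
      rw [h2]
      unfold curve
      have h3 : sg i * (sg i * rad i * arg z) / rad i = arg z := by
        have hr := (rad_pos i).ne'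
        have hs := sg_sq i
        have : sg i * (sg i * rad i * arg z) = (sg i * sg i) * (rad i * arg z) := by ring
        rw [this, hs, one_mul, mul_div_cancel_left₀ _ hr]
      rw [h3, ← hi]
      exact Complex.norm_mul_exp_arg_mul_I z
  · rintro ⟨i, s, _, rfl⟩
    rw [norm_curve]
    fin_cases i
    · right; rfl
    · left; rfl

/-- The annulus `1 ≤ |z| ≤ 2` as a billiard table. -/
noncomputable def ann : Table 2 where
  Q := Q
  len := len
  γ := curve
  closed := fun _ => True
  compact := compact_Q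
  conn := connected_interior_Q
  regular := closure_interior_Q
  len_pos := len_pos
  smooth := contDiff_curve
  unit := by
    intro i s _
    rw [deriv_curve, norm_mul, Complex.norm_exp_ofReal_mul_I, mul_one, norm_mul, norm_I, mul_one,
      Complex.norm_real, Real.norm_eq_abs]
    fin_cases i
    · show |(1 : ℝ)| = 1; norm_num
    · show |(-1 : ℝ)| = 1; norm_num
  periodic := fun i _ => curve_periodic i
  boundary := boundary_Q
  simple := by
    intro i j s hs t ht h
    have hij := index_eq h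
    subst hij
    refine ⟨rfl, ?_⟩
    obtain ⟨k, hk⟩ := curve_inj h
    have hk0 : k = 0 := by
      by_contra hk0
      have hl := len_pos i
      rcases lt_or_gt_of_ne hk0 with h8 | h8
      · have : (k : ℝ) ≤ -1 := by exact_mod_cast (by omega : k ≤ -1)
        nlinarith [hs.1, hs.2, ht.1, ht.2]
      · have : (1 : ℝ) ≤ k := by exact_mod_cast (by omega : 1 ≤ k)
        nlinarith [hs.1, hs.2, ht.1, ht.2]
    rw [hk, hk0]; simp
  simple_closed := fun i j _ t _ h => index_eq h
  inward := by
    intro i s _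
    filter_upwards [Ioo_mem_nhdsGT (zero_lt_one' ℝ)] with t ht
    rw [deriv_curve, interior_Q]
    have h1 : curve i s + t * (I * (sg i * I * exp ((sg i * s / rad i : ℝ) * I))) =
        ((rad i - sg i * t : ℝ) : ℂ) * exp ((sg i * s / rad i : ℝ) * I) := by
      unfold curve
      have hI : I * I = -1 := I_mul_I
      generalize exp ((sg i * s / rad i : ℝ) * I) = e
      push_cast
      linear_combination (t * sg i * e) * hI
    rw [mem_ofPred_eq, h1, norm_mul, Complex.norm_exp_ofReal_mul_I, mul_one, Complex.norm_real,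
      Real.norm_eq_abs]
    fin_cases i
    · show 1 < |(2 : ℝ) - 1 * t| ∧ |(2 : ℝ) - 1 * t| < 2
      rw [abs_of_pos (by linarith [ht.2])]
      constructor <;> linarith [ht.1, ht.2]
    · show 1 < |(1 : ℝ) - (-1) * t| ∧ |(1 : ℝ) - (-1) * t| < 2
      rw [abs_of_pos (by linarith [ht.1])]
      constructor <;> linarith [ht.1, ht.2]

end Pool.Agent.W715.Bil.Ann
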