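import Pool.Agent.W217.BE.Stm3
import Pool.Agent.W280.BELOC

set_option autoImplicit false

namespace Pool.Agent.W715.BELOC34

open Pool.Agent.W217.BE

section
variable {B : Type} [CommRing B] [IsLocalRing B]

theorem topzero (r : ℕ → ℕ) (d : ∀ i, (Fin (r (i + 1)) → B) →ₗ[B] (Fin (r i) → B))
    (hex : ∀ i, LinearMap.range (d (i + 1)) = LinearMap.ker (d i))
    (hmin : ∀ i x j, d i x j ∈ IsLocalRing.maximalIdeal B) (i : ℕ) (h : ∀ x, d i x = 0) :
    r (i + 1) = 0 := by
  by_contra hne
  have hpos : 0 < r (i + 1) := Nat.pos_of_ne_zero hne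
  have hmem : (Pi.single ⟨0, hpos⟩ 1 : Fin (r (i + 1)) → B) ∈ LinearMap.ker (d i) := by
    rw [LinearMap.mem_ker]
    exact h _
  rw [← hex i] at hmem
  obtain ⟨x, hx⟩ := hmem
  have h1 := hmin (i + 1) x ⟨0, hpos⟩
  rw [hx, Pi.single_eq_same] at h1
  exact (IsLocalRing.maximalIdeal.isMaximal B).ne_top ((Ideal.eq_top_iff_one _).2 h1)

theorem zerostep (r : ℕ → ℕ) (d : ∀ i, (Fin (r (i + 1)) → B) →ₗ[B] (Fin (r i) → B))
    (hex : ∀ i, LinearMap.range (d (i + 1)) = LinearMap.ker (d i))
    (hmin : ∀ i x j, d i x j ∈ IsLocalRing.maximalIdeal B) (i : ℕ) (h : r i = 0) :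
    ∀ k, r (i + k) = 0 := by
  intro k
  induction k with
  | zero => exact h
  | succ k ih =>
    apply topzero r d hex hmin (i + k)
    intro x
    have : IsEmpty (Fin (r (i + k))) := by rw [ih]; infer_instance
    exact Subsingleton.elim _ _

end

theorem socle (B : Type) [CommRing B] [IsLocalRing B] [IsNoetherianRing B] (N : Type)
    [AddCommGroup N] [Module B N] [Nontrivial N]
    (hq : ∀ q : Ideal B, q.IsPrime → Module.annihilator B N ≤ q →
      q = IsLocalRing.maximalIdeal B) :
    ∃ w : N, w ≠ 0 ∧ ∀ y ∈ IsLocalRing.maximalIdeal B, y • w = 0 := by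
  obtain ⟨P, hP⟩ := associatedPrimes.nonempty B N
  have hP' := (isAssociatedPrime_iff.1 hP)
  obtain ⟨hprime, w, hw⟩ := hP'
  have hle : Module.annihilator B N ≤ P := by
    intro a ha
    rw [hw, Submodule.mem_colon_singleton, Submodule.mem_bot]
    exact Module.mem_annihilator.1 ha w
  have hPm := hq P hprime hle
  refine ⟨w, ?_, ?_⟩
  · rintro rfl
    apply hprime.ne_top
    rw [hw, Ideal.eq_top_iff_one, Submodule.mem_colon_singleton, smul_zero]
    exact Submodule.zero_mem _
  · intro y hy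
    rw [← hPm, hw, Submodule.mem_colon_singleton, Submodule.mem_bot] at hy
    exact hy

theorem main : MINRES → INDEP → MAC → REGDOM → REGRES → RKX → DUALM → LOC34 := by
  intro hMIN hIND hMAC hREGD hREGR hRKX hDUAL B _ _ N _ _ _ _ hq
  have hdom : IsDomain B := hREGD B
  obtain ⟨r, dX, εX, hX, hmin⟩ := hMIN B N
  have hX' := hX
  obtain ⟨hsur, hex0, hex⟩ := hX'
  have key : ∀ (c : ℕ), (∀ i, Nat.choose c i ≤ r i) →
      HB (IsLocalRing.residue B) N (fun i => Nat.choose c i) := by
    intro c hc P _ _ _ d ε hres i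
    apply hIND B _ (IsLocalRing.residue B) N (fun i => Fin (r i) → B) P dX εX d ε hX hres i
      (Nat.choose c i)
    exact Pool.Agent.W280.BELOC.certA r dX hmin i _ (hc i)
  have hr0 : 1 ≤ r 0 := by
    by_contra hlt
    have h0 : r 0 = 0 := by omega
    have hsub : Subsingleton (Fin (r 0) → B) := by
      rw [h0]; infer_instance
    have hN : Subsingleton N := hsur.subsingleton
    exact not_subsingleton N hN
  have hfin : (IsLocalRing.maximalIdeal B).height ≠ ⊤ :=
    Ideal.height_ne_top (IsLocalRing.maximalIdeal.isMaximal B).ne_top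
  obtain ⟨D, hD⟩ := ENat.ne_top_iff_exists.1 hfin
  have hsoc := socle B N hq
  obtain ⟨hvan, hlast⟩ := hREGR D B hD.symm N r dX εX hX hmin
  have hrD : r D ≠ 0 := hlast hsoc
  have common : (3 : ℕ∞) ≤ (IsLocalRing.maximalIdeal B).height → r 3 ≠ 0 ∧
      (∃ a : B, a ≠ 0 ∧ ∀ x : N, a • x = 0) ∧ (∃ x, dX 2 x ≠ 0) := by
    intro h3
    have hD3 : 3 ≤ D := by
      rw [← hD] at h3
      exact_mod_cast h3
    have hr3 : r 3 ≠ 0 := by
      intro h0
      have := zerostep r dX hex hmin 3 h0 (D - 3)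
      rw [show 3 + (D - 3) = D by omega] at this
      exact hrD this
    refine ⟨hr3, ?_, ?_⟩
    · by_contra hcon
      push Not at hcon
      have hbot : Module.annihilator B N ≤ (⊥ : Ideal B) := by
        intro a ha
        by_contra hne
        obtain ⟨x, hx⟩ := hcon a (by simpa using hne)
        exact hx (Module.mem_annihilator.1 ha x)
      have hb := hq ⊥ Ideal.isPrime_bot hbot
      rw [← hb] at h3
      rw [Ideal.height_bot] at h3
      exact absurd h3 (by decide)
    · by_contra hcon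
      push Not at hcon
      exact hr3 (topzero r dX hex hmin 2 hcon)
  have hmac : ∀ e : ℕ, 1 ≤ e → (e : ℕ∞) ≤ (IsLocalRing.maximalIdeal B).height →
      e + r 0 ≤ r 1 + 1 := by
    intro e he1 he
    exact hMAC B N (r 0) (r 1) e (dX 0) εX (fun x j => hmin 0 x j) hsur hex0 hq he1 he
  constructor
  · intro h3
    obtain ⟨hr3, ⟨a, ha0, ha⟩, hd2⟩ := common h3
    have h1 := hmac 3 (by norm_num) (by exact_mod_cast h3)
    have h2 := (hRKX B N a ha0 ha r dX εX hX).1 hd2
    apply key
    intro i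
    rcases i with _ | _ | _ | _ | i
    · simpa using hr0
    · have : Nat.choose 3 1 = 3 := by decide
      show Nat.choose 3 1 ≤ r 1
      omega
    · have : Nat.choose 3 2 = 3 := by decide
      show Nat.choose 3 2 ≤ r 2
      omega
    · have : Nat.choose 3 3 = 1 := by decide
      show Nat.choose 3 3 ≤ r 3
      omega
    · rw [Nat.choose_eq_zero_of_lt (by omega)]; exact Nat.zero_le _
  · intro h4
    have h3 : (3 : ℕ∞) ≤ (IsLocalRing.maximalIdeal B).height := by
      rw [h4]
      decide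
    obtain ⟨hr3, ⟨a, ha0, ha⟩, hd2⟩ := common h3
    have hD4 : D = 4 := by
      rw [← hD] at h4
      exact_mod_cast h4
    have hr4 : r 4 ≠ 0 := by rw [hD4] at hrD; exact hrD
    have hr5 : r 5 = 0 := hvan 5 (by omega)
    have h4' : ((4 : ℕ) : ℕ∞) ≤ (IsLocalRing.maximalIdeal B).height := by
      rw [h4]; exact le_of_eq (by norm_num)
    have h1 := hmac 4 (by norm_num) h4'
    have h5 := (hRKX B N a ha0 ha r dX εX hX).2 hr5
    have h6 := hDUAL B N r dX εX 4 hX hmin hq hr5 hr4 (by norm_num) h4'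
    apply key
    intro i
    rcases i with _ | _ | _ | _ | _ | i
    · simpa using hr0
    · have : Nat.choose 4 1 = 4 := by decide
      show Nat.choose 4 1 ≤ r 1
      omega
    · have : Nat.choose 4 2 = 6 := by decide
      show Nat.choose 4 2 ≤ r 2
      omega
    · have : Nat.choose 4 3 = 4 := by decide
      show Nat.choose 4 3 ≤ r 3
      omega
    · have : Nat.choose 4 4 = 1 := by decide
      show Nat.choose 4 4 ≤ r 4
      omega
    · rw [Nat.choose_eq_zero_of_lt (by omega)]; exact Nat.zero_le _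

end Pool.Agent.W715.BELOC34
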