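import Mathlib

/-!
# Planar billiard tables, the billiard map in the coordinates (r, φ), and its derivative
-/

set_option autoImplicit false

open Set Filter Topology MeasureTheory Complex

namespace Pool.Agent.W715.Bil

/-- A compact planar billiard table `Q` whose boundary is the union of `n` curves `γ i` of class
`C^3`, the curve `γ i` being parametrised by arc length on `[0, len i]`, with `Q` on its left side.
A curve is either a smooth closed curve (`closed i`), or an arc whose two end points are corners.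
Different curves meet at corners only. -/
structure Table (n : ℕ) where
  /-- the table -/
  Q : Set ℂ
  /-- the lengths of the boundary curves -/
  len : Fin n → ℝ
  /-- the boundary curves -/
  γ : Fin n → ℝ → ℂ
  /-- the boundary curves which are smooth closed curves, without a corner -/
  closed : Fin n → Prop
  compact : IsCompact Q
  conn : IsConnected (interior Q)
  regular : closure (interior Q) = Q
  len_pos : ∀ i, 0 < len i
  smooth : ∀ i, ContDiff ℝ 3 (γ i)
  unit : ∀ i, ∀ s ∈ Icc 0 (len i), ‖deriv (γ i) s‖ = 1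
  periodic : ∀ i, closed i → Function.Periodic (γ i) (len i)
  boundary : frontier Q = ⋃ i, γ i '' Icc 0 (len i)
  simple : ∀ i j, ∀ s ∈ Ioo 0 (len i), ∀ t ∈ Icc 0 (len j), γ i s = γ j t → i = j ∧ s = t
  simple_closed : ∀ i j, closed i → ∀ t ∈ Icc 0 (len j), γ i 0 = γ j t → i = j
  inward : ∀ i, ∀ s, (closed i ∨ s ∈ Ioo 0 (len i)) →
    ∀ᶠ t : ℝ in 𝓝[>] 0, γ i s + t * (I * deriv (γ i) s) ∈ interior Q

/-- States: the index of a boundary curve, the arc length parameter `r` and the angle `φ` between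
the velocity and the inward normal. -/
abbrev State (n : ℕ) : Type := Fin n × ℝ × ℝ

namespace Table

variable {n : ℕ} (T : Table n)

/-- No cusps: where an arc ends and another one starts, the two tangent directions into the corner
are different, so that the interior angle is not zero. -/
def NoCusps : Prop :=
  ∀ i j, ¬ T.closed i → ¬ T.closed j → T.γ i (T.len i) = T.γ j 0 →
    deriv (T.γ j) 0 ≠ - deriv (T.γ i) (T.len i)

/-- The foot point of a state. -/
noncomputable def pos (x : State n) : ℂ := T.γ x.1 x.2.1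

/-- The velocity of a state: the inward normal `I * γ'` turned by the angle `φ`,
so that `vel = cos φ * (I * γ') + sin φ * γ'`. -/
noncomputable def vel (x : State n) : ℂ :=
  I * deriv (T.γ x.1) x.2.1 * exp (-(x.2.2 * I))

/-- Non-tangential states over a boundary point which is not a corner. -/
def Reg (x : State n) : Prop :=
  (T.closed x.1 ∨ x.2.1 ∈ Ioo 0 (T.len x.1)) ∧ |x.2.2| < Real.pi / 2

/-- `Step x y`: neither `x` nor `y` is tangential or at a corner, the straight line from the foot
point of `x` in the direction of the velocity runs inside the table until it hits the boundary at the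
foot point of `y`, and the velocity of `y` is the mirror image of that of `x` in the tangent line
there. -/
def Step (x y : State n) : Prop :=
  T.Reg x ∧ T.Reg y ∧ ∃ t : ℝ, 0 < t ∧ T.pos y = T.pos x + t * T.vel x ∧
    (∀ s ∈ Ioo 0 t, T.pos x + s * T.vel x ∈ interior T.Q) ∧
    T.vel y = (deriv (T.γ y.1) y.2.1) ^ 2 * (starRingEnd ℂ) (T.vel x)

/-- The phase space in the coordinates `(r, φ)`: `0 ≤ r < len i` on closed curves, `0 < r < len i` on
arcs, and `|φ| ≤ π / 2`. -/
def Dom : Set (State n) :=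
  {x | x.2.1 ∈ Ico 0 (T.len x.1) ∧ (¬ T.closed x.1 → x.2.1 ≠ 0) ∧ |x.2.2| ≤ Real.pi / 2}

/-- A two-sided orbit of the billiard map which never meets the singular set. -/
def Orbit (z : ℤ → State n) : Prop :=
  ∀ k, z k ∈ T.Dom ∧ T.Step (z k) (z (k + 1))

/-- The states whose entire orbit avoids the singular set. -/
def Good : Set (State n) := {x | ∃ z, T.Orbit z ∧ z 0 = x}

/-- The periodic points of the billiard map. -/
def PeriodicPts : Set (State n) :=
  {x | ∃ z, T.Orbit z ∧ z 0 = x ∧ ∃ k : ℕ, 0 < k ∧ z k = x}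

/-- `A` is the derivative of the billiard map at `x` in the coordinates `(r, φ)`: near `x` the map is
given by `(i, p) ↦ (j, G p)` with a function `G` with derivative `A` at `x` (on closed curves the
parameter `r` of the image is taken modulo the length). -/
def HasDeriv (x : State n) (A : ℝ × ℝ →L[ℝ] ℝ × ℝ) : Prop :=
  ∃ (j : Fin n) (G : ℝ × ℝ → ℝ × ℝ), HasFDerivAt G A x.2 ∧
    ∀ᶠ p in 𝓝 x.2, T.Step (x.1, p) (j, G p)

variable {T}

lemma reg_frontier {y : State n} (hy : T.Reg y) : T.pos y ∈ frontier T.Q := by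
  rw [T.boundary, mem_iUnion]
  refine ⟨y.1, ?_⟩
  rcases hy.1 with h | h
  · have hp := T.len_pos y.1
    refine ⟨toIcoMod hp 0 y.2.1, ?_, ?_⟩
    · have := toIcoMod_mem_Ico hp 0 y.2.1
      rw [zero_add] at this
      exact ⟨this.1, this.2.le⟩
    · unfold pos
      have h1 := (T.periodic y.1 h).sub_zsmul_eq (x := y.2.1) (toIcoDiv hp 0 y.2.1)
      rw [← h1]
      rfl
  · exact ⟨y.2.1, ⟨h.1.le, h.2.le⟩, rfl⟩

/-- The parameter in the fundamental domain. -/
lemma exists_rep {y : State n} (hy : T.Reg y) : ∃ (s : ℝ) (m : ℤ), y.2.1 = s + m * T.len y.1 ∧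
    s ∈ Ico 0 (T.len y.1) ∧ (T.closed y.1 ∨ (s ∈ Ioo 0 (T.len y.1) ∧ m = 0)) := by
  rcases hy.1 with h | h
  · have hp := T.len_pos y.1
    refine ⟨toIcoMod hp 0 y.2.1, toIcoDiv hp 0 y.2.1, ?_, ?_, Or.inl h⟩
    · have := toIcoMod_add_toIcoDiv_zsmul hp 0 y.2.1
      rw [zsmul_eq_mul] at this
      exact this.symm
    · simpa using toIcoMod_mem_Ico hp 0 y.2.1
  · exact ⟨y.2.1, 0, by simp, ⟨h.1.le, h.2⟩, Or.inr ⟨h, rfl⟩⟩

lemma deriv_periodic {i : Fin n} (h : T.closed i) : Function.Periodic (deriv (T.γ i)) (T.len i) := by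
  intro s
  have h1 : (fun u => T.γ i (u + T.len i)) = T.γ i := funext (T.periodic i h)
  have h2 : deriv (fun u => T.γ i (u + T.len i)) s = deriv (T.γ i) (s + T.len i) := by
    rw [deriv_comp_add_const]
  rw [← h2, h1]

/-- Two regular states with the same foot point. -/
lemma foot_unique {y y' : State n} (hy : T.Reg y) (hy' : T.Reg y') (h : T.pos y = T.pos y') :
    y.1 = y'.1 ∧ ∃ m : ℤ, y.2.1 = y'.2.1 + m * T.len y.1 ∧ (T.closed y.1 ∨ m = 0) := by
  obtain ⟨s, m, h1, h2, h3⟩ := exists_rep hy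
  obtain ⟨s', m', h1', h2', h3'⟩ := exists_rep hy'
  have hps : T.pos y = T.γ y.1 s := by
    unfold pos
    rcases h3 with h3 | h3
    · rw [h1]
      have := (T.periodic y.1 h3).int_mul m s
      exact this
    · rw [h1, h3.2]; simp
  have hps' : T.pos y' = T.γ y'.1 s' := by
    unfold pos
    rcases h3' with h3 | h3
    · rw [h1']
      have := (T.periodic y'.1 h3).int_mul m' s'
      exact this
    · rw [h1', h3.2]; simp
  rw [hps, hps'] at h
  have key : y.1 = y'.1 ∧ s = s' := by
    rcases h2.1.eq_or_lt with h4 | h4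
    · rcases h2'.1.eq_or_lt with h5 | h5
      · have hc : T.closed y.1 := by
          rcases h3 with h3 | h3
          · exact h3
          · exact absurd h3.1.1 (by rw [← h4]; simp)
        refine ⟨T.simple_closed y.1 y'.1 hc s' ⟨h2'.1, h2'.2.le⟩ ?_, by rw [← h4, ← h5]⟩
        rw [← h, ← h4]
      · have := T.simple y'.1 y.1 s' ⟨h5, h2'.2⟩ s ⟨h2.1, h2.2.le⟩ h.symm
        exact ⟨this.1.symm, this.2.symm⟩
    · exact T.simple y.1 y'.1 s ⟨h4, h2.2⟩ s' ⟨h2'.1, h2'.2.le⟩ h
  refine ⟨key.1, m - m', ?_, ?_⟩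
  · rw [h1, h1', key.2, key.1]; push_cast; ring
  · rcases h3 with h3 | h3
    · exact Or.inl h3
    · rcases h3' with h3' | h3'
      · rw [← key.1] at h3'; exact Or.inl h3'
      · right; rw [h3.2, h3'.2]; rfl

/-- The billiard map is well defined. -/
lemma step_det {x y y' : State n} (h : T.Step x y) (h' : T.Step x y') :
    y.1 = y'.1 ∧ (∃ m : ℤ, y.2.1 = y'.2.1 + m * T.len y.1 ∧ (T.closed y.1 ∨ m = 0)) ∧
      y.2.2 = y'.2.2 := by
  obtain ⟨hx, hy, t, ht, h1, h2, h3⟩ := h
  obtain ⟨_, hy', t', ht', h1', h2', h3'⟩ := h'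
  have htt : t = t' := by
    by_contra hne
    rcases lt_or_gt_of_ne hne with hlt | hlt
    · have := h2' t ⟨ht, hlt⟩
      rw [← h1] at this
      exact (disjoint_left.1 disjoint_interior_frontier) this (reg_frontier hy)
    · have := h2 t' ⟨ht', hlt⟩
      rw [← h1'] at this
      exact (disjoint_left.1 disjoint_interior_frontier) this (reg_frontier hy')
  have hpos : T.pos y = T.pos y' := by rw [h1, h1', htt]
  obtain ⟨hi, m, hm, hc⟩ := foot_unique hy hy' hpos
  refine ⟨hi, ⟨m, hm, hc⟩, ?_⟩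
  have hd : deriv (T.γ y.1) y.2.1 = deriv (T.γ y'.1) y'.2.1 := by
    rcases hc with hc | hc
    · rw [hm, (deriv_periodic hc).int_mul m y'.2.1, hi]
    · rw [hm, hc, hi]; simp
  have hv : T.vel y = T.vel y' := by rw [h3, h3', hd]
  have hn : ‖deriv (T.γ y.1) y.2.1‖ = 1 := by
    obtain ⟨s, k, h4, h5, h6⟩ := exists_rep hy
    have : deriv (T.γ y.1) y.2.1 = deriv (T.γ y.1) s := by
      rcases h6 with h6 | h6
      · rw [h4, (deriv_periodic h6).int_mul k s]
      · rw [h4, h6.2]; simp
    rw [this]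
    exact T.unit y.1 s ⟨h5.1, h5.2.le⟩
  have hne : I * deriv (T.γ y.1) y.2.1 ≠ 0 := by
    refine mul_ne_zero I_ne_zero ?_
    intro h0
    rw [h0, norm_zero] at hn
    exact zero_ne_one hn
  unfold vel at hv
  rw [← hd] at hv
  have he := mul_left_cancel₀ hne hv
  rw [Complex.exp_eq_exp_iff_exists_int] at he
  obtain ⟨k, hk⟩ := he
  have hk2 : y'.2.2 = y.2.2 + k * (2 * Real.pi) := by
    have h7 := congrArg Complex.im hk
    simp at h7
    linarith
  have hb1 := abs_lt.1 hy.2
  have hb2 := abs_lt.1 hy'.2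
  have hpi := Real.pi_pos
  have hk0 : k = 0 := by
    by_contra hk0
    rcases lt_or_gt_of_ne hk0 with h8 | h8
    · have : (k : ℝ) ≤ -1 := by exact_mod_cast (by omega : k ≤ -1)
      nlinarith
    · have : (1 : ℝ) ≤ k := by exact_mod_cast (by omega : 1 ≤ k)
      nlinarith
  rw [hk2, hk0]; simp

/-- The next state in the fundamental domain is unique. -/
lemma step_unique {x y y' : State n} (h : T.Step x y) (h' : T.Step x y') (hy : y ∈ T.Dom)
    (hy' : y' ∈ T.Dom) : y = y' := by
  obtain ⟨h1, ⟨m, h2, h3⟩, h4⟩ := step_det h h'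
  have hl := T.len_pos y.1
  have a1 := hy.1
  have a2 := hy'.1
  rw [← h1] at a2
  have hm : m = 0 := by
    by_contra hm
    rcases lt_or_gt_of_ne hm with h8 | h8
    · have : (m : ℝ) ≤ -1 := by exact_mod_cast (by omega : m ≤ -1)
      nlinarith [a1.1, a1.2, a2.1, a2.2]
    · have : (1 : ℝ) ≤ m := by exact_mod_cast (by omega : 1 ≤ m)
      nlinarith [a1.1, a1.2, a2.1, a2.2]
  rw [hm] at h2
  refine Prod.ext h1 (Prod.ext ?_ h4)
  simpa using h2

/-- The derivative of the billiard map is unique. -/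
lemma hasDeriv_unique {x : State n} {A B : ℝ × ℝ →L[ℝ] ℝ × ℝ} (hA : T.HasDeriv x A)
    (hB : T.HasDeriv x B) : A = B := by
  obtain ⟨j, G, hG, hs⟩ := hA
  obtain ⟨j', G', hG', hs'⟩ := hB
  have hl : 0 < T.len j := T.len_pos j
  have h1 : ∀ᶠ p in 𝓝 x.2, ∃ m : ℤ, G p - G' p = ((m : ℝ) * T.len j, 0) := by
    filter_upwards [hs, hs'] with p hp hp'
    obtain ⟨h1, ⟨m, h2, h3⟩, h4⟩ := step_det hp hp'
    refine ⟨m, Prod.ext ?_ ?_⟩
    · simp only [Prod.fst_sub]
      simp only at h2
      linarith
    · simp only [Prod.snd_sub]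
      simp only at h4
      linarith
  have hcont : ContinuousAt (fun p => (G p - G' p).1) x.2 :=
    ((hG.continuousAt.sub hG'.continuousAt).fst)
  have h2 : ∀ᶠ p in 𝓝 x.2, G p - G' p = G x.2 - G' x.2 := by
    have h3 : ∀ᶠ p in 𝓝 x.2, |(G p - G' p).1 - (G x.2 - G' x.2).1| < T.len j := by
      have := hcont.tendsto
      rw [Metric.tendsto_nhds] at this
      have h5 := this (T.len j) hl
      simp only [Real.dist_eq] at h5
      exact h5
    obtain ⟨m0, hm0⟩ := h1.self_of_nhds
    filter_upwards [h1, h3] with p ⟨m, hm⟩ h5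
    rw [hm, hm0] at h5 ⊢
    simp only at h5
    have : m = m0 := by
      by_contra hne
      have h6 : (1 : ℝ) ≤ |(m : ℝ) - m0| := by
        have : (1 : ℤ) ≤ |m - m0| := Int.one_le_abs (sub_ne_zero.2 hne)
        exact_mod_cast this
      rw [← sub_mul, abs_mul, abs_of_pos hl] at h5
      nlinarith
    rw [this]
  have h3 : HasFDerivAt (fun p => G' p + (G x.2 - G' x.2)) B x.2 := hG'.add_const _
  have h4 : HasFDerivAt G B x.2 := by
    refine h3.congr_of_eventuallyEq ?_
    filter_upwards [h2] with p hp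
    rw [← hp]; abel
  exact hG.unique h4

end Table

end Pool.Agent.W715.Bil
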