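import Pool.Agent.W527.CL.Stm

/-!
# MP_7de521_nt, part LGC: facts on the logarithms
-/

set_option autoImplicit false

namespace Pool.Agent.W715.CL

open Pool.Agent.W527.CL NumberField

theorem beta_ne_zero {K : Type} [Field K] [NumberField K] (D : FieldData K) (j : Fin 4)
    (k : Fin 5) : D.β k + (nn j : ℂ) ≠ 0 := by
  intro h
  have h1 : D.β k = ((-(nn j) : ℤ) : ℂ) := by
    push_cast
    exact eq_neg_of_add_eq_zero_left h
  have h2 := D.root k
  rw [h1] at h2
  have h3 : ((-(nn j)) ^ 5 - 4 * (-(nn j)) + 2 : ℤ) = 0 := by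
    exact_mod_cast h2
  revert h3
  fin_cases j <;> simp [nn]

theorem conj_beta_add {K : Type} [Field K] [NumberField K] (D : FieldData K) (j : Fin 4)
    (k : Fin 5) : (starRingEnd ℂ) (D.β k + (nn j : ℂ)) = D.β (Equiv.swap 3 4 k) + (nn j : ℂ) := by
  rw [map_add, D.conj k]
  simp

theorem arg_ne {K : Type} [Field K] [NumberField K] (hP : S_POS) (D : FieldData K) (j : Fin 4)
    (k : Fin 5) : (D.β k + (nn j : ℂ)).arg ≠ Real.pi := by
  by_cases hk : k ≠ 3 ∧ k ≠ 4
  · obtain ⟨r, hr, he⟩ := hP K D k j hk.1 hk.2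
    rw [he, Complex.arg_ofReal_of_nonneg hr.le]
    exact Real.pi_ne_zero.symm
  · intro h
    rw [Complex.arg_eq_pi_iff] at h
    have h1 : (starRingEnd ℂ) (D.β k + (nn j : ℂ)) = D.β k + (nn j : ℂ) :=
      Complex.conj_eq_iff_im.mpr h.2
    rw [conj_beta_add] at h1
    have h2 : Equiv.swap 3 4 k = k := D.inj (add_right_cancel h1)
    have h3 : k = 3 ∨ k = 4 := by
      by_contra hc
      push Not at hc
      exact hk hc
    rcases h3 with rfl | rfl
    · revert h2; decide
    · revert h2; decide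

theorem t_LGC (hP : Pool.Agent.W527.CL.S_POS) : Pool.Agent.W527.CL.S_LGC := by
  intro K _ _ D j k
  refine ⟨?_, ?_, ?_⟩
  · exact Complex.log_re _
  · unfold FieldData.lgc
    rw [← Complex.log_conj _ (arg_ne hP D j k), conj_beta_add]
  · exact Complex.exp_log (beta_ne_zero D j k)

end Pool.Agent.W715.CL
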