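import Pool.Agent.W527.PC.Stm

/-!
# MP_7de521_nt, project PC, part RANK
-/

set_option autoImplicit false

namespace Pool.Agent.W715.PC

open Pool.Agent.W527.CL Pool.Agent.W527.PC NumberField

theorem zpow_sum' {A ι : Type*} [CommGroup A] (s : Finset ι) (a : A) (f : ι → ℤ) :
    a ^ (∑ i ∈ s, f i) = ∏ i ∈ s, a ^ f i := by
  classical
  induction s using Finset.induction_on with
  | empty => simp
  | insert i s hi ih => rw [Finset.sum_insert hi, Finset.prod_insert hi, zpow_add, ih]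

theorem hat_castSucc (X : Matrix (Fin 4) (Fin 5) ℤ) (i : Fin 4) (j : Fin 5) :
    hat X i.castSucc j = X i j := by
  simp [hat]

theorem hat_last (X : Matrix (Fin 4) (Fin 5) ℤ) (j : Fin 5) :
    hat X (Fin.last 4) j = -∑ i, X i j := by
  unfold hat
  rw [Fin.lastCases_last]

theorem sum_hat (X : Matrix (Fin 4) (Fin 5) ℤ) (j : Fin 5) : ∑ k, hat X k j = 0 := by
  rw [Fin.sum_univ_castSucc, hat_last]
  simp_rw [hat_castSucc]
  ring

theorem prod_hat {A : Type*} [CommGroup A] (w : Fin 5 → Fin 5 → A)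
    (X : Matrix (Fin 4) (Fin 5) ℤ) :
    ∏ i : Fin 4, ∏ j : Fin 5, (w i.castSucc j / w (Fin.last 4) j) ^ X i j =
      ∏ j : Fin 5, ∏ k : Fin 5, w k j ^ hat X k j := by
  rw [Finset.prod_comm]
  apply Finset.prod_congr rfl
  intro j _
  rw [Fin.prod_univ_castSucc (fun k : Fin 5 => w k j ^ hat X k j), hat_last, zpow_neg, zpow_sum',
    ← Finset.prod_inv_distrib, ← Finset.prod_mul_distrib]
  apply Finset.prod_congr rfl
  intro i _
  rw [hat_castSucc, div_zpow, div_eq_mul_inv]

section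

variable {K : Type} [Field K] [NumberField K] {D : FieldData K} {p : ℕ} [Fact p.Prime]
  (P : PData D p)

/-- the permutation given by an embedding -/
noncomputable def pp (φ : K →+* ℚ_[p]) : Equiv.Perm (Fin 5) := (P.emb φ).choose

theorem pp_spec (φ : K →+* ℚ_[p]) (k : Fin 5) : φ (D.b k) = ((P.r (pp P φ k) : ℤ_[p]) : ℚ_[p]) :=
  (P.emb φ).choose_spec k

/-- the unit `r_k + n_j` -/
noncomputable def uu (k j : Fin 5) : ℚ_[p]ˣ :=
  Units.map (PadicInt.Coe.ringHom : ℤ_[p] →+* ℚ_[p]).toMonoidHom (P.unit k j).unit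

theorem uu_val (k j : Fin 5) : ((uu P k j : ℚ_[p]ˣ) : ℚ_[p]) = (P.r k : ℚ_[p]) + (n5 j : ℚ_[p]) := by
  change (((P.r k + ((n5 j : ℤ) : ℤ_[p]) : ℤ_[p])) : ℚ_[p]) = _
  push_cast
  rfl

theorem embp_bu (φ : K →+* ℚ_[p]) (k j : Fin 5) : embp K p (bu D k j) φ = uu P (pp P φ k) j := by
  apply Units.ext
  rw [uu_val, ← pp_spec]
  change φ (D.b k + (n5 j : K)) = _
  rw [map_add, map_intCast]

theorem embp_G (σ : Equiv.Perm (Fin 5)) (X : Matrix (Fin 4) (Fin 5) ℤ) (φ : K →+* ℚ_[p]) :
    embp K p (G D σ X) φ = ∏ j, ∏ k, uu P (pp P φ k) (σ j) ^ hat X k j := by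
  rw [← prod_hat (fun k j => uu P (pp P φ k) (σ j)) X]
  unfold G g
  rw [map_prod, Finset.prod_apply]
  apply Finset.prod_congr rfl
  intro i _
  rw [map_prod, Finset.prod_apply]
  apply Finset.prod_congr rfl
  intro j _
  rw [map_zpow, map_div, Pi.pow_apply, Pi.div_apply, embp_bu P, embp_bu P]

theorem b_inj (D : FieldData K) : Function.Injective D.b := by
  obtain ⟨φ, hφ⟩ := D.surj 1
  intro k k' h
  apply D.inj
  have h1 := hφ k
  have h2 := hφ k'
  rw [h, h2] at h1
  exact h1.symm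

theorem r_inj : Function.Injective P.r := by
  obtain ⟨φ, hφ⟩ := P.surj 1
  intro k k' h
  apply b_inj D
  apply φ.injective
  rw [hφ, hφ]
  simp only [Equiv.Perm.coe_one, id_eq, h]

theorem pp_surj : Function.Surjective (pp P) := by
  intro ρ
  obtain ⟨φ, hφ⟩ := P.surj ρ
  refine ⟨φ, ?_⟩
  ext k
  have h1 := pp_spec P φ k
  rw [hφ k] at h1
  have h2 : P.r (ρ k) = P.r (pp P φ k) := Subtype.coe_injective h1
  rw [r_inj P h2]

end

theorem t_RANK (hG : S_GINJ) (hL : S_LIN) : S_RANK := by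
  intro K _ _ D p _ P σ N
  set M : Subgroup Kˣ := LL D σ ⊓ (pointsp K p N).comap (embp K p) with hM
  let S : AddSubgroup (Matrix (Fin 4) (Fin 5) ℤ) :=
    { carrier := {X | X ∈ USym ∧ G D σ X ∈ M}
      zero_mem' := ⟨zero_mem _, by rw [G_zero]; exact one_mem _⟩
      add_mem' := by
        rintro X Y ⟨hX, hX'⟩ ⟨hY, hY'⟩
        exact ⟨add_mem hX hY, by rw [G_add]; exact mul_mem hX' hY'⟩
      neg_mem' := by
        rintro X ⟨hX, hX'⟩
        exact ⟨neg_mem hX, by rw [G_neg]; exact inv_mem hX'⟩ }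
  let e : S →+ Additive M :=
    { toFun := fun X => Additive.ofMul ⟨G D σ X.1, X.2.2⟩
      map_zero' := by
        apply Additive.toMul.injective
        apply Subtype.ext
        exact G_zero D σ
      map_add' := by
        intro X Y
        apply Additive.toMul.injective
        apply Subtype.ext
        exact G_add D σ X.1 Y.1 }
  have he : Function.Bijective e := by
    constructor
    · rw [injective_iff_map_eq_zero]
      intro X hX
      apply Subtype.ext
      apply hG K D σ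
      have h1 := congrArg (fun z : Additive M => ((Additive.toMul z : M) : Kˣ)) hX
      exact h1
    · intro x
      obtain ⟨X, hX, hx⟩ := (Additive.toMul x).2.1
      have hx' : G D σ X ∈ M := by
        rw [← hx]; exact (Additive.toMul x).2
      refine ⟨⟨X, hX, hx'⟩, ?_⟩
      apply Additive.toMul.injective
      apply Subtype.ext
      exact hx.symm
  have hrk : rk K M = Module.finrank ℤ S := by
    unfold rk
    exact (LinearEquiv.finrank_eq (AddEquiv.ofBijective e he).toIntLinearEquiv).symm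
  rw [hrk, Nat.card_eq_fintype_card]
  refine hL (K →+* ℚ_[p]) (pp P) (pp_surj P) S N (fun X hX => hX.1) ?_
  intro χ hχ X hX
  let E : Matrix (Fin 5) (Fin 5) ℤ := fun k j => ∑ φ, χ φ * hat X ((pp P φ).symm k) j
  let E' : Matrix (Fin 4) (Fin 5) ℤ := fun i j => E i.castSucc j
  have hsum : ∀ j, ∑ k, E k j = 0 := by
    intro j
    change ∑ k, ∑ φ, χ φ * hat X ((pp P φ).symm k) j = 0
    rw [Finset.sum_comm]
    apply Finset.sum_eq_zero
    intro φ _
    rw [← Finset.mul_sum, Equiv.sum_comp (pp P φ).symm (fun k => hat X k j), sum_hat, mul_zero]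
  have hE : ∀ k j, hat E' k j = E k j := by
    intro k j
    refine Fin.lastCases ?_ (fun i => ?_) k
    · rw [hat_last]
      have h1 := hsum j
      rw [Fin.sum_univ_castSucc] at h1
      change -∑ i : Fin 4, E i.castSucc j = _
      linarith
    · rw [hat_castSucc]
  have h1 : ∏ φ, embp K p (G D σ X) φ ^ χ φ = 1 := hX.2.2 χ hχ
  have h2 : ∏ j, ∏ k, uu P k (σ j) ^ E k j = 1 := by
    rw [← h1]
    have h3 : ∀ φ : K →+* ℚ_[p], embp K p (G D σ X) φ ^ χ φ =
        ∏ j, ∏ k, uu P k (σ j) ^ (χ φ * hat X ((pp P φ).symm k) j) := by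
      intro φ
      rw [embp_G P, ← Finset.prod_zpow]
      apply Finset.prod_congr rfl
      intro j _
      rw [← Finset.prod_zpow, ← Equiv.prod_comp (pp P φ) (fun k => uu P k (σ j) ^
        (χ φ * hat X ((pp P φ).symm k) j))]
      apply Finset.prod_congr rfl
      intro k _
      rw [Equiv.symm_apply_apply, mul_comm, zpow_mul]
    calc ∏ j, ∏ k, uu P k (σ j) ^ E k j
        = ∏ j, ∏ k, ∏ φ : K →+* ℚ_[p], uu P k (σ j) ^ (χ φ * hat X ((pp P φ).symm k) j) :=
          Finset.prod_congr rfl fun j _ => Finset.prod_congr rfl fun k _ => zpow_sum' _ _ _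
      _ = ∏ j, ∏ φ : K →+* ℚ_[p], ∏ k, uu P k (σ j) ^ (χ φ * hat X ((pp P φ).symm k) j) :=
          Finset.prod_congr rfl fun j _ => Finset.prod_comm
      _ = ∏ φ : K →+* ℚ_[p], ∏ j, ∏ k, uu P k (σ j) ^ (χ φ * hat X ((pp P φ).symm k) j) :=
          Finset.prod_comm
      _ = ∏ φ : K →+* ℚ_[p], embp K p (G D σ X) φ ^ χ φ :=
          Finset.prod_congr rfl fun φ _ => (h3 φ).symm
  obtain ⟨φ0, hφ0⟩ := pp_surj P 1
  have h4 : embp K p (G D σ E') φ0 = 1 := by
    rw [embp_G P, hφ0, ← h2]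
    apply Finset.prod_congr rfl
    intro j _
    apply Finset.prod_congr rfl
    intro k _
    rw [hE]
    rfl
  have h5 : G D σ E' = 1 := by
    apply Units.ext
    apply φ0.injective
    have h6 := congrArg (fun z : ℚ_[p]ˣ => (z : ℚ_[p])) h4
    rw [Units.val_one, map_one]
    exact h6
  have h6 := hG K D σ E' h5
  intro k j
  change E k j = 0
  rw [← hE k j, h6]
  refine Fin.lastCases ?_ (fun i => ?_) k
  · rw [hat_last]; simp
  · rw [hat_castSucc]; rfl

end Pool.Agent.W715.PC
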